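import Pool.Agent.Helper34.SG.Build

/-!
# Names of closed sets, of points and of closed null sets
-/

namespace Pool.Agent.Helper34.SG

open Set Function

set_option linter.unusedSectionVars false

variable {I : Type} [LinearOrder I] [WellFoundedLT I]

/-- a monotone property of conditions which is determined on dense sets -/
structure Reg (ξ : I) (φ : Cn I → Prop) : Prop where
  mono : ∀ p q, Ext ξ q p → φ p → φ q
  dense : ∀ p, Val ξ p → (∀ q, Ext ξ q p → ∃ r, Ext ξ r q ∧ φ r) → φ p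

/-- A name (for the poset number `ξ`) of a closed subset `T` of the Cantor space: `O σ p` says that
`p` forces that no point of `T` has the initial segment `σ`. -/
structure CN (ξ : I) where
  O : List Bool → Cn I → Prop
  reg : ∀ σ, Reg ξ (O σ)
  ext : ∀ σ b p, O σ p → O (σ ++ [b]) p
  split : ∀ σ p, Val ξ p → O (σ ++ [false]) p → O (σ ++ [true]) p → O σ p

/-- A name (for the poset number `ξ`) of a point `x` of the Cantor space: `D σ p` says that
`p` forces that `σ` is an initial segment of `x`. -/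
structure RN (ξ : I) where
  D : List Bool → Cn I → Prop
  reg : ∀ σ, Reg ξ (D σ)
  nil : ∀ p, D [] p
  pre : ∀ σ b p, D (σ ++ [b]) p → D σ p
  cons : ∀ p σ τ, Val ξ p → D σ p → D τ p → σ <+: τ ∨ τ <+: σ
  dense : ∀ k p, Val ξ p → ∃ q σ, Ext ξ q p ∧ σ.length = k ∧ D σ q

/-- the measure of the clopen set coded by `u`, or more -/
noncomputable def wt (u : Finset (List Bool)) : ℝ := ∑ σ ∈ u, (1 / 2 : ℝ) ^ σ.length

/-- `[σ]` is disjoint from the clopen set coded by `u` -/
def Apart (σ : List Bool) (u : Finset (List Bool)) : Prop := ∀ τ ∈ u, ¬ τ <+: σ ∧ ¬ σ <+: τ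

/-- A name of a sequence of clopen sets `U_m`, where `U_m` has measure at most `2 ^ (-m)`;
`U m u p` says that `p` forces `U_m = u`. It codes the closed null set `⋂ m, U_m`. -/
structure NS (β : I) where
  U : ℕ → Finset (List Bool) → Cn I → Prop
  mono : ∀ m u p q, Ext β q p → U m u p → U m u q
  func : ∀ m u v p, Val β p → U m u p → U m v p → u = v
  dense : ∀ m p, Val β p → ∃ q u, Ext β q p ∧ U m u q
  small : ∀ m u p, U m u p → wt u ≤ (1 / 2) ^ m

/-- `p` forces that `T` (with the name `O`) is contained in the clopen set `u`. -/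
def InC (O : List Bool → Cn I → Prop) (u : Finset (List Bool)) (p : Cn I) : Prop :=
  ∀ σ, Apart σ u → O σ p

/-- `p` forces that `T` is contained in the closed null set coded by `N`. -/
def Covers (ξ : I) {β : I} (O : List Bool → Cn I → Prop) (N : NS β) (p : Cn I) : Prop :=
  ∀ m u q, Ext ξ q p → N.U m u q → InC O u q

/-- `p` forces `T ⊆ C` -/
def Sub (ξ : I) (p : Cn I) (T C : List Bool → Cn I → Prop) : Prop :=
  ∀ σ q, Ext ξ q p → C σ q → T σ q

/-- `p` forces that `S` has measure more than `2 ^ (-m)` for some `m`. -/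
def NN (β : I) (O : List Bool → Cn I → Prop) (p : Cn I) : Prop :=
  ∃ m : ℕ, ∀ q, Ext β q p → ∀ u, wt u ≤ (1 / 2) ^ m → ¬ InC O u q

/-- `p` forces that `C` is nowhere dense. -/
def NWD (β : I) (O : List Bool → Cn I → Prop) (p : Cn I) : Prop :=
  ∀ q, Ext β q p → ∀ σ, ∃ r τ, Ext β r q ∧ σ <+: τ ∧ O τ r

/-! ### The closed set `{x}` -/

/-- the name of `{x}` -/
def RN.toCN {ξ : I} (x : RN ξ) : CN ξ where
  O σ p := ∀ q, Ext ξ q p → ¬ x.D σ q
  reg σ :=
    ⟨fun _ _ hq h r hr => h r (hr.trans hq), fun _ _ h q hq hD => by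
      obtain ⟨r, hr, h1⟩ := h q hq
      exact h1 r (Ext.refl hr.1) ((x.reg σ).mono _ _ hr hD)⟩
  ext σ b p h q hq hD := h q hq (x.pre σ b q hD)
  split σ p _ h0 h1 q hq hD := by
    obtain ⟨r, τ, hr, hτ, hDτ⟩ := x.dense (σ.length + 1) q hq.1
    have hDσ := (x.reg σ).mono _ _ hr hD
    have h2 : σ <+: τ := by
      rcases x.cons r σ τ hr.1 hDσ hDτ with h | h
      · exact h
      · have := h.length_le
        omega
    obtain ⟨ρ, rfl⟩ := h2
    rw [List.length_append] at hτ
    obtain ⟨b, rfl⟩ := List.length_eq_one_iff.1 (show ρ.length = 1 by omega)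
    cases b with
    | false => exact h0 r (hr.trans hq) hDτ
    | true => exact h1 r (hr.trans hq) hDτ

/-! ### Restriction of names -/

theorem cut_mono {δ γ : I} {p q : Cn I} (h : Ext δ q p) : Ext γ (cut δ q) (cut δ p) :=
  ⟨Val_cut γ h.1, cut_le ((cut_agr δ q).le.trans h.2)⟩

theorem Reg.cut {δ γ : I} (hδ : δ ≤ γ) {φ : Cn I → Prop} (h : Reg γ φ) :
    Reg δ (fun p => φ (cut δ p)) where
  mono p q hq hp := h.mono _ _ (cut_mono hq) hp
  dense p hp hd := by
    refine h.dense _ (Val_cut γ hp) fun q hq => ?_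
    have h1 : Ext δ q p := ⟨hq.1.anti hδ, (hq.2.anti hδ).trans (cut_agr δ p).le⟩
    obtain ⟨r, hr, h2⟩ := hd q h1
    refine ⟨mix δ r q, mix_ext hr hq.1, h.mono _ _ ⟨(mix_ext hr hq.1).1, ?_⟩ h2⟩
    exact cut_le (mix_agr δ r q).le

/-- the restriction of the name of a closed set to the poset number `δ` -/
noncomputable def CN.res {γ : I} (T : CN γ) (δ : I) (hδ : δ ≤ γ) : CN δ where
  O σ p := T.O σ (cut δ p)
  reg σ := (T.reg σ).cut hδ
  ext σ b p h := T.ext σ b _ h
  split σ p hp h0 h1 := T.split σ _ (Val_cut γ hp) h0 h1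

/-- the restriction of the name of a point to the poset number `δ`, if it is a name for this
poset -/
noncomputable def RN.res {γ : I} (x : RN γ) (δ : I) (hδ : δ ≤ γ)
    (h : ∀ σ p, Val γ p → x.D σ p → x.D σ (cut δ p)) : RN δ where
  D σ p := x.D σ (cut δ p)
  reg σ := (x.reg σ).cut hδ
  nil _ := x.nil _
  pre σ b _ := x.pre σ b _
  cons _ σ τ hp := x.cons _ σ τ (Val_cut γ hp)
  dense k p hp := by
    obtain ⟨q, σ, hq, hσ, hD⟩ := x.dense k _ (Val_cut γ hp)
    exact ⟨q, σ, ⟨hq.1.anti hδ, (hq.2.anti hδ).trans (cut_agr δ p).le⟩, hσ, h σ q hq.1 hD⟩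

/-- names for a poset are names for the later posets -/
theorem Reg.lift {δ γ : I} (hδ : δ ≤ γ) {φ : Cn I → Prop} (h : Reg δ φ) : Reg γ φ where
  mono p q hq hp := h.mono _ _ (hq.anti hδ) hp
  dense p hp hd := by
    refine h.dense _ (hp.anti hδ) fun q hq => ?_
    obtain ⟨r, hr, h2⟩ := hd (mix δ q p) (mix_ext hq hp)
    refine ⟨r, ⟨hr.1.anti hδ, (hr.2.anti hδ).trans (mix_agr δ q p).le⟩, h2⟩

/-! ### The closed sets determined by a stem -/

/-- The set `T_t`: the intersection of the sets of possible points of `T` over all conditions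
with stem `t` at the coordinate `ξ`. -/
def CN.nd {ξ ξ' : I} (T : CN ξ') (hξ : ∀ η, η < ξ' ↔ η ≤ ξ) (t : List ℕ) : CN ξ where
  O σ r := ∀ r₁, Ext ξ r₁ r → ∃ p, Val ξ' p ∧ Ext ξ p r₁ ∧ p.dom ξ ∧ p.st ξ = t ∧ T.O σ p
  reg σ :=
    ⟨fun _ _ hq h r₁ hr₁ => h r₁ (hr₁.trans hq), fun _ _ h r₁ hr₁ => by
      obtain ⟨r, hr, h1⟩ := h r₁ hr₁
      obtain ⟨q, h2, h3, h4⟩ := h1 r (Ext.refl hr.1)
      exact ⟨q, h2, h3.trans hr, h4⟩⟩
  ext σ b r h r₁ hr₁ := by
    obtain ⟨p, h1, h2, h3, h4, h5⟩ := h r₁ hr₁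
    exact ⟨p, h1, h2, h3, h4, T.ext σ b p h5⟩
  split σ r _ h0 h1 r₁ hr₁ := by
    have hle : ξ ≤ ξ' := ((hξ ξ).2 le_rfl).le
    obtain ⟨p, k1, k2, k3, k4, k5⟩ := h0 r₁ hr₁
    obtain ⟨q, l1, l2, l3, l4, l5⟩ := h1 p (k2.trans hr₁)
    obtain ⟨u, m1, m2, m3, m4, m5⟩ := exists_merge hξ l1 k1 l2.2 l3 k3 (l4.trans k4.symm)
    refine ⟨u, m1.1, ((m1.anti hle).trans l2).trans k2, m4, m5.trans l4, ?_⟩
    exact T.split σ u m1.1 ((T.reg _).mono _ _ m2 k5) ((T.reg _).mono _ _ m1 l5)

/-- The closed set `T_t ∪ ⋃ j ≥ k, T_(t ++ [j])`. -/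
def CN.ndk {ξ ξ' : I} (T : CN ξ') (hξ : ∀ η, η < ξ' ↔ η ≤ ξ) (t : List ℕ) (k : ℕ) : CN ξ where
  O σ r := (T.nd hξ t).O σ r ∧ ∀ j ≥ k, (T.nd hξ (t ++ [j])).O σ r
  reg σ :=
    ⟨fun p q hq h => ⟨((T.nd hξ t).reg σ).mono p q hq h.1,
      fun j hj => ((T.nd hξ (t ++ [j])).reg σ).mono p q hq (h.2 j hj)⟩,
    fun p hp h => ⟨((T.nd hξ t).reg σ).dense p hp fun q hq => by
      obtain ⟨r, hr, h1⟩ := h q hq
      exact ⟨r, hr, h1.1⟩, fun j hj => ((T.nd hξ (t ++ [j])).reg σ).dense p hp fun q hq => by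
      obtain ⟨r, hr, h1⟩ := h q hq
      exact ⟨r, hr, h1.2 j hj⟩⟩⟩
  ext σ b r h := ⟨(T.nd hξ t).ext σ b r h.1, fun j hj => (T.nd hξ (t ++ [j])).ext σ b r (h.2 j hj)⟩
  split σ r hr h0 h1 := ⟨(T.nd hξ t).split σ r hr h0.1 h1.1,
    fun j hj => (T.nd hξ (t ++ [j])).split σ r hr (h0.2 j hj) (h1.2 j hj)⟩

/-! ### The E-set of a stage -/

/-- an enumeration of the codes of the clopen sets; every code has arbitrarily large numbers -/
def dec (v : ℕ) : Finset (List Bool) :=
  (Encodable.decode (α := Finset (List Bool)) v.unpair.1).getD ∅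

open Classical in
/-- the clopen set number `v` if its measure is at most `2 ^ (-n)` -/
noncomputable def W (n v : ℕ) : Finset (List Bool) := if wt (dec v) ≤ (1 / 2) ^ n then dec v else ∅

/-- Let `g` and `h` be the generic reals at the coordinates `α` and `α'`. The condition `p` forces
that, for some `m ≥ j`, the set `[s]` is disjoint from `W n (g n)` for `m ≤ n < h m`, where `k`
codes `(j, s)`. So this is a name of a code of the set `⋃ j, ⋂ m ≥ j, ⋃ n ∈ [m, h m), W n (g n)`,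
which belongs to the ideal generated by the closed null sets. -/
def EC (α α' : I) (k : ℕ) (p : Cn I) : Prop :=
  ∃ (j m b : ℕ) (s : List Bool), k = Nat.pair j (Encodable.encode s) ∧ j ≤ m ∧ p.dom α ∧
    p.dom α' ∧ (p.st α')[m]? = some b ∧ b ≤ (p.st α).length ∧
      ∀ n v, m ≤ n → n < b → (p.st α)[n]? = some v → Apart s (W n v)

/-- `r` forces that `x` belongs to the closed set number `j` with the code `A`. -/
def FIn (κ : I) (x : RN κ) (A : ℕ → Cn I → Prop) (j : ℕ) (r : Cn I) : Prop :=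
  ∀ s p, Ext κ p r → A (Nat.pair j (Encodable.encode s)) p → x.toCN.O s p

/-! ### The group operation -/

/-- `Nb ρ τ` is the set of the strings `l` (of the length `k` of `ρ` and `τ`) such that the sum
of a point with the initial segment `ρ` and a point with the initial segment `τ` may have the
initial segment `l`. The Steinhaus property: the sum of two subsets of large density of two basic
sets contains points near all points of a nonempty open set. -/
def Stein (Nb : List Bool → List Bool → Finset (List Bool)) : Prop :=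
  ∀ ρ₁ σ₁ : List Bool, ρ₁.length = σ₁.length → ∃ τ₀ : List Bool, ∀ τ, τ₀ <+: τ → ∃ K, ∀ k ≥ K,
    ∀ B A : Finset (List Bool), (∀ b ∈ B, b.length = k ∧ ρ₁ <+: b) →
      (∀ a ∈ A, a.length = k ∧ σ₁ <+: a) →
      (3 / 4 : ℝ) * 2 ^ (k - ρ₁.length) ≤ B.card → (3 / 4 : ℝ) * 2 ^ (k - ρ₁.length) ≤ A.card →
      ∃ b ∈ B, ∃ a ∈ A, ∀ l ∈ Nb b a, τ <+: l

/-- the name of the closed set `C - x` -/
def subO (β : I) (O : List Bool → Cn I → Prop) (x : RN β)
    (Nb : List Bool → List Bool → Finset (List Bool)) (τ : List Bool) (p : Cn I) : Prop :=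
  ∀ q, Ext β q p → ∃ q', Ext β q' q ∧ ∃ ρ, τ.length ≤ ρ.length ∧ x.D ρ q' ∧
    ∀ τ', τ'.length = ρ.length → τ <+: τ' → ∀ l ∈ Nb ρ τ', O l q'

/-- `q` forces that `x₁ + x₂` belongs to the closed set with the name `O`. -/
def SumIn (κ : I) (Nb : List Bool → List Bool → Finset (List Bool)) (x₁ x₂ : RN κ)
    (O : List Bool → Cn I → Prop) (q : Cn I) : Prop :=
  ∀ r, Ext κ r q → ∀ ρ τ, ρ.length = τ.length → x₁.D ρ r → x₂.D τ r →
    ¬ ∀ l ∈ Nb ρ τ, O l r

/-- The countable set `D` of names of closed sets is sufficient for the name `T` of a closed set: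
whenever a closed set `C` of the earlier model contains `T` then `T` is contained in a closed null
set of the earlier model or some `S ∈ D` of positive measure is contained in `C`. (Of the name of
`C` we only need that it is monotone.) -/
def KeyD {β γ : I} (T : CN γ) (D : Set (CN β)) : Prop :=
  ∀ r, Val γ r → ∀ C : List Bool → Cn I → Prop, (∀ σ p q, Ext β q p → C σ p → C σ q) →
    Sub γ r T.O C →
    (∃ r', Ext γ r' r ∧ ∃ N : NS β, Covers γ T.O N r') ∨
      ∃ S ∈ D, ∃ q, Ext β q r ∧ Sub β q S.O C ∧ NN β S.O q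

/-- the neighbours of the sum: the Cantor group -/
def NbC (ρ τ : List Bool) : Finset (List Bool) := {List.zipWith xor ρ τ}

/-- the number with the binary digits `σ` -/
def bv (σ : List Bool) : ℕ := σ.foldl (fun a b => 2 * a + b.toNat) 0

/-- the last `k` binary digits of `n` -/
def bits : ℕ → ℕ → List Bool
  | 0, _ => []
  | k + 1, n => bits k (n / 2) ++ [decide (n % 2 = 1)]

/-- the neighbours of the sum: the circle group -/
def NbR (ρ τ : List Bool) : Finset (List Bool) :=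
  (Finset.range 4).image fun e => bits ρ.length (bv ρ + bv τ + 2 ^ ρ.length - 1 + e)

/-- The assumptions on the length `κ` of the iteration: its cofinality is greater than `ℵ₁`;
`sc` is the successor function. -/
structure Long (κ : I) (sc : I → I) : Prop where
  sc_lt : ∀ α < κ, sc α < κ
  lt_sc : ∀ α < κ, ∀ η, η < sc α ↔ η ≤ α
  bdd : ∀ s : Set I, Cardinal.mk s ≤ Cardinal.aleph 1 → (∀ i ∈ s, i < κ) → ∃ δ < κ, ∀ i ∈ s, i < δ

end Pool.Agent.Helper34.SG
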