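import Pool.Agent.Helper34.SG.Ord

/-!
# Constructions of conditions
-/

namespace Pool.Agent.Helper34.SG

open Set Function

set_option linter.unusedSectionVars false

variable {I : Type} [LinearOrder I] [WellFoundedLT I]

/-! ### Mixing -/

/-- `r` below `δ` and `q` from `δ` on -/
noncomputable def mix (δ : I) (r q : Cn I) : Cn I :=
  .mk (fun η => if η < δ then r.dom η else q.dom η) (fun η => if η < δ then r.st η else q.st η)
    (fun η => if η < δ then r.fc η else q.fc η) (fun η => if η < δ then r.fm η else q.fm η)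

theorem mix_agr (δ : I) (r q : Cn I) : Agr δ (mix δ r q) r := by
  intro η hη
  simp [mix, hη]

theorem mix_dom {δ η : I} {r q : Cn I} (h : δ ≤ η) : (mix δ r q).dom η ↔ q.dom η := by
  simp [mix, not_lt.2 h]

theorem mix_dom' {δ η : I} {r q : Cn I} (h : η < δ) : (mix δ r q).dom η ↔ r.dom η := by
  simp [mix, h]

theorem mix_st {δ η : I} {r q : Cn I} (h : δ ≤ η) : (mix δ r q).st η = q.st η := by
  simp [mix, not_lt.2 h]

theorem mix_st' {δ η : I} {r q : Cn I} (h : η < δ) : (mix δ r q).st η = r.st η := by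
  simp [mix, h]

theorem mix_fc {δ η : I} {r q : Cn I} (h : δ ≤ η) : (mix δ r q).fc η = q.fc η := by
  simp [mix, not_lt.2 h]

theorem mix_fc' {δ η : I} {r q : Cn I} (h : η < δ) : (mix δ r q).fc η = r.fc η := by
  simp [mix, h]

theorem mix_fm {δ η : I} {r q : Cn I} (h : δ ≤ η) : (mix δ r q).fm η = q.fm η := by
  simp [mix, not_lt.2 h]

theorem mix_fm' {δ η : I} {r q : Cn I} (h : η < δ) : (mix δ r q).fm η = r.fm η := by
  simp [mix, h]

theorem Val_mix {δ γ : I} {r q : Cn I} (hr : Val δ r) (hq : Val γ q) : Val γ (mix δ r q) := by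
  rw [Val_iff] at hr hq ⊢
  constructor
  · refine (hr.1.union hq.1).subset ?_
    rintro η ⟨h1, h2⟩
    rcases lt_or_ge η δ with h | h
    · exact Or.inl ⟨h, (mix_dom' h).1 h2⟩
    · exact Or.inr ⟨h1, (mix_dom h).1 h2⟩
  · intro η hη hd
    rcases lt_or_ge η δ with h | h
    · rw [mix_fc' h, mix_fm' h]
      exact hr.2 η h ((mix_dom' h).1 hd)
    · rw [mix_fc h, mix_fm h]
      exact hq.2 η hη ((mix_dom h).1 hd)

theorem Ob.mono {η : I} {p q : Cn I} {c : List ℕ → ℕ → Cn I} {m : List ℕ → ℕ → ℕ} {t : List ℕ}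
    {v : ℕ} (h : Ob η p c m t v) (hq : Le η q p) : Ob η q c m t v :=
  fun j hj => (h j hj).mono hq (Le.refl _ _)

theorem Ob.up {η : I} {p : Cn I} {c : List ℕ → ℕ → Cn I} {m : List ℕ → ℕ → ℕ} {t : List ℕ}
    {v w : ℕ} (h : Ob η p c m t v) (hw : v ≤ w) : Ob η p c m t w :=
  fun j hj => h j (hw.trans_lt hj)

theorem mix_ext {δ γ : I} {r q : Cn I} (hr : Ext δ r q) (hq : Val γ q) :
    Ext γ (mix δ r q) q := by
  refine ⟨Val_mix hr.1 hq, ?_⟩
  have h1 := hr.2
  rw [Le_iff] at h1 ⊢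
  intro η hη hd
  rcases lt_or_ge η δ with h | h
  · obtain ⟨g1, g2, g3, g4⟩ := h1 η h hd
    rw [mix_dom' h, mix_st' h, mix_fc' h, mix_fm' h]
    exact ⟨g1, g2, fun t v k1 k2 => (g3 t v k1 k2).mono ((mix_agr δ r q).le.anti h.le), g4⟩
  · rw [mix_dom h, mix_st h, mix_fc h, mix_fm h]
    refine ⟨hd, List.prefix_refl _, fun t v g1 g2 => ?_, fun t j => ⟨j, rfl, rfl⟩⟩
    have g3 := g1.length_le
    have g4 := g2.length_le
    rw [List.length_append, List.length_singleton] at g4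
    omega

theorem mix_ext' {δ : I} {r q : Cn I} (hr : Val δ r) : Ext δ (mix δ r q) r :=
  (mix_agr δ r q).ext hr

/-- the part below `δ` -/
noncomputable def cut (δ : I) (r : Cn I) : Cn I := mix δ r (emp I)

theorem cut_agr (δ : I) (r : Cn I) : Agr δ (cut δ r) r := mix_agr _ _ _

theorem cut_dom {δ η : I} {r : Cn I} : (cut δ r).dom η ↔ η < δ ∧ r.dom η := by
  rcases lt_or_ge η δ with h | h
  · simp [cut, mix, h]
  · simp [cut, mix, h, not_lt.2 h]

theorem Val_cut {δ : I} (γ : I) {r : Cn I} (hr : Val δ r) : Val γ (cut δ r) :=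
  Val_mix hr (Val_emp γ)

/-- An extension of `q` in the poset number `δ` is one of `cut δ q` in all later posets. -/
theorem cut_le {δ γ : I} {r q : Cn I} (h : Le δ r q) : Le γ r (cut δ q) := by
  have h1 := h.trans (cut_agr δ q).symm.le
  rw [Le_iff] at h1 ⊢
  intro η _ hd
  exact h1 η (cut_dom.1 hd).1 hd

/-! ### Families -/

/-- the union of two families of conditions -/
def jf {A : Type} (c c' : List ℕ → ℕ → A) (t : List ℕ) (j : ℕ) : A :=
  if j % 2 = 0 then c t (j / 2) else c' t (j / 2)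

theorem jf_left {A : Type} (c c' : List ℕ → ℕ → A) (t : List ℕ) (j : ℕ) :
    jf c c' t (2 * j) = c t j := by
  unfold jf
  rw [if_pos (by omega)]
  congr 1
  omega

theorem jf_right {A : Type} (c c' : List ℕ → ℕ → A) (t : List ℕ) (j : ℕ) :
    jf c c' t (2 * j + 1) = c' t j := by
  unfold jf
  rw [if_neg (by omega)]
  congr 1
  omega

theorem jf_cases {A B : Type} (c c' : List ℕ → ℕ → A) (m m' : List ℕ → ℕ → B) (t : List ℕ)
    (j : ℕ) : ∃ i, (jf c c' t j = c t i ∧ jf m m' t j = m t i) ∨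
      (jf c c' t j = c' t i ∧ jf m m' t j = m' t i) := by
  refine ⟨j / 2, ?_⟩
  unfold jf
  split_ifs
  · exact Or.inl ⟨rfl, rfl⟩
  · exact Or.inr ⟨rfl, rfl⟩

theorem ValF.join {η : I} {c c' : List ℕ → ℕ → Cn I} {m m' : List ℕ → ℕ → ℕ}
    (h : ValF η c m) (h' : ValF η c' m') : ValF η (jf c c') (jf m m') := by
  constructor
  · intro t j
    rcases jf_cases c c' m m' t j with ⟨i, ⟨e, -⟩ | ⟨e, -⟩⟩
    · rw [e]; exact h.1 t i
    · rw [e]; exact h'.1 t i
  · intro t p hp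
    obtain ⟨q, hq, M, hM⟩ := h.2 t p hp
    obtain ⟨r, hr, M', hM'⟩ := h'.2 t q hq.1
    refine ⟨r, hr.trans hq, max M M', fun j hj => ?_⟩
    rcases jf_cases c c' m m' t j with ⟨i, ⟨e, e'⟩ | ⟨e, e'⟩⟩
    · rw [e]
      rw [e'] at hj
      exact (hM i ((le_max_left _ _).trans_lt hj)).mono hr.2 (Le.refl _ _)
    · rw [e]
      rw [e'] at hj
      exact hM' i ((le_max_right _ _).trans_lt hj)

theorem Ob_join {η : I} {p : Cn I} {c c' : List ℕ → ℕ → Cn I} {m m' : List ℕ → ℕ → ℕ}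
    {t : List ℕ} {v : ℕ} : Ob η p (jf c c') (jf m m') t v ↔ Ob η p c m t v ∧ Ob η p c' m' t v := by
  constructor
  · intro h
    constructor
    · intro j hj
      have := h (2 * j) (by rw [jf_left]; exact hj)
      rwa [jf_left] at this
    · intro j hj
      have := h (2 * j + 1) (by rw [jf_right]; exact hj)
      rwa [jf_right] at this
  · rintro ⟨h, h'⟩ j hj
    rcases jf_cases c c' m m' t j with ⟨i, ⟨e, e'⟩ | ⟨e, e'⟩⟩
    · rw [e]
      rw [e'] at hj
      exact h i hj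
    · rw [e]
      rw [e'] at hj
      exact h' i hj

theorem exists_bound {η : I} {p : Cn I} {c : List ℕ → ℕ → Cn I} {m : List ℕ → ℕ → ℕ}
    (hp : Val η p) (hF : ValF η c m) (t : List ℕ) :
    ∃ q, Ext η q p ∧ ∃ M, ∀ v ≥ M, Ob η q c m t v := by
  obtain ⟨q, hq, M, hM⟩ := hF.2 t p hp
  exact ⟨q, hq, M, fun v hv j hj => hM j (lt_of_le_of_lt hv hj)⟩

theorem ValF_triv (η : I) : ValF η (fun _ _ => emp I) (fun _ _ => 0) :=
  ⟨fun _ _ => Val_emp η, fun _ p hp => ⟨p, Ext.refl hp, 0, fun _ hj => absurd hj (lt_irrefl _)⟩⟩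

theorem Ob_triv {η : I} {p : Cn I} {t : List ℕ} {v : ℕ} :
    Ob η p (fun _ _ => emp I) (fun _ _ => 0) t v := fun _ hj => absurd hj (Nat.not_lt_zero _)

/-! ### Changing one coordinate -/

/-- change of the coordinate `ξ` -/
noncomputable def upd (ξ : I) (p : Cn I) (s : List ℕ) (c : List ℕ → ℕ → Cn I)
    (m : List ℕ → ℕ → ℕ) : Cn I :=
  .mk (fun η => η = ξ ∨ p.dom η) (update p.st ξ s) (update p.fc ξ c) (update p.fm ξ m)

section upd

variable {ξ : I} {p : Cn I} {s : List ℕ} {c : List ℕ → ℕ → Cn I} {m : List ℕ → ℕ → ℕ}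

@[simp] theorem upd_dom {η : I} : (upd ξ p s c m).dom η ↔ η = ξ ∨ p.dom η := Iff.rfl

@[simp] theorem upd_st : (upd ξ p s c m).st ξ = s := by simp [upd]

@[simp] theorem upd_fc : (upd ξ p s c m).fc ξ = c := by simp [upd]

@[simp] theorem upd_fm : (upd ξ p s c m).fm ξ = m := by simp [upd]

theorem upd_st' {η : I} (h : η ≠ ξ) : (upd ξ p s c m).st η = p.st η := by simp [upd, h]

theorem upd_fc' {η : I} (h : η ≠ ξ) : (upd ξ p s c m).fc η = p.fc η := by simp [upd, h]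

theorem upd_fm' {η : I} (h : η ≠ ξ) : (upd ξ p s c m).fm η = p.fm η := by simp [upd, h]

theorem upd_agr : Agr ξ (upd ξ p s c m) p := by
  intro η hη
  rw [upd_st' hη.ne, upd_fc' hη.ne, upd_fm' hη.ne, upd_dom]
  exact ⟨⟨fun h => h.resolve_left hη.ne, Or.inr⟩, fun _ => ⟨rfl, rfl, rfl⟩⟩

theorem Val_upd {γ : I} (hp : Val γ p) (hF : ValF ξ c m) : Val γ (upd ξ p s c m) := by
  rw [Val_iff] at hp ⊢
  constructor
  · refine (hp.1.union (Set.finite_singleton ξ)).subset ?_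
    rintro η ⟨h1, h2 | h2⟩
    · exact Or.inr h2
    · exact Or.inl ⟨h1, h2⟩
  · intro η hη hd
    by_cases h : η = ξ
    · subst h
      rw [upd_fc, upd_fm]
      exact hF
    · rw [upd_fc' h, upd_fm' h]
      exact hp.2 η hη (hd.resolve_left h)

theorem upd_le {γ : I} (h1 : p.dom ξ → p.st ξ <+: s ∧
      (∀ t v, p.st ξ <+: t → t ++ [v] <+: s → Ob ξ p (p.fc ξ) (p.fm ξ) t v) ∧
      ∀ t j, ∃ j', c t j' = p.fc ξ t j ∧ m t j' = p.fm ξ t j) : Le γ (upd ξ p s c m) p := by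
  rw [Le_iff]
  intro η _ hd
  by_cases h : η = ξ
  · subst h
    obtain ⟨h2, h3, h4⟩ := h1 hd
    rw [upd_st, upd_fc, upd_fm]
    exact ⟨Or.inl rfl, h2, fun t v k1 k2 => (h3 t v k1 k2).mono upd_agr.le, h4⟩
  · rw [upd_st' h, upd_fc' h, upd_fm' h]
    refine ⟨Or.inr hd, List.prefix_refl _, fun t v g1 g2 => ?_, fun t j => ⟨j, rfl, rfl⟩⟩
    have g3 := g1.length_le
    have g4 := g2.length_le
    rw [List.length_append, List.length_singleton] at g4
    omega

end upd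

/-- adding a family -/
theorem addF_ext {γ ξ : I} {p : Cn I} (hp : Val γ p) (hd : p.dom ξ)
    (hF' : ValF ξ (p.fc ξ) (p.fm ξ)) {c : List ℕ → ℕ → Cn I} {m : List ℕ → ℕ → ℕ}
    (hF : ValF ξ c m) :
    Ext γ (upd ξ p (p.st ξ) (jf (p.fc ξ) c) (jf (p.fm ξ) m)) p := by
  refine ⟨Val_upd hp (hF'.join hF), upd_le fun _ => ⟨List.prefix_refl _, fun t v g1 g2 => ?_,
    fun t j => ⟨2 * j, jf_left _ _ _ _, jf_left _ _ _ _⟩⟩⟩
  have g3 := g1.length_le
  have g4 := g2.length_le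
  rw [List.length_append, List.length_singleton] at g4
  omega

theorem Val.valF {γ ξ : I} {p : Cn I} (hp : Val γ p) (h : ξ < γ) (hd : p.dom ξ) :
    ValF ξ (p.fc ξ) (p.fm ξ) := ((Val_iff γ p).1 hp).2 ξ h hd

/-- adding a coordinate -/
theorem exists_dom {γ : I} (ξ : I) {p : Cn I} (hp : Val γ p) : ∃ q, Ext γ q p ∧ q.dom ξ ∧
    Agr ξ q p ∧ (p.dom ξ → q = p) := by
  by_cases hd : p.dom ξ
  · exact ⟨p, Ext.refl hp, hd, fun η _ => ⟨Iff.rfl, fun _ => ⟨rfl, rfl, rfl⟩⟩, fun _ => rfl⟩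
  · exact ⟨upd ξ p [] (fun _ _ => emp I) (fun _ _ => 0),
      ⟨Val_upd hp (ValF_triv ξ), upd_le fun h => absurd h hd⟩, Or.inl rfl, upd_agr,
      fun h => absurd h hd⟩

/-- extending a stem by one value -/
theorem addV_ext {γ ξ : I} {p : Cn I} (hp : Val γ p) (h : ξ < γ) (hd : p.dom ξ) {v : ℕ}
    (hv : Ob ξ p (p.fc ξ) (p.fm ξ) (p.st ξ) v) :
    Ext γ (upd ξ p (p.st ξ ++ [v]) (p.fc ξ) (p.fm ξ)) p := by
  refine ⟨Val_upd hp (hp.valF h hd), upd_le fun _ => ⟨List.prefix_append _ _,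
    fun t w g1 g2 => ?_, fun t j => ⟨j, rfl, rfl⟩⟩⟩
  have g3 := g1.length_le
  have g4 := g2.length_le
  rw [List.length_append, List.length_append, List.length_singleton, List.length_singleton] at g4
  have g5 : p.st ξ = t := g1.eq_of_length (by omega)
  subst g5
  have g6 : p.st ξ ++ [w] = p.st ξ ++ [v] := g2.eq_of_length (by simp)
  have g7 : w = v := by
    have := List.append_cancel_left g6
    simpa using this
  rw [g7]
  exact hv

/-- extending a stem by a large value; the extension of the part below `ξ` is needed to know the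
bound of the side condition -/
theorem exists_addV {γ ξ : I} {p : Cn I} (hp : Val γ p) (h : ξ < γ) (hd : p.dom ξ) :
    ∃ q, Ext γ q p ∧ q.dom ξ ∧ q.st ξ = p.st ξ ∧ q.fc ξ = p.fc ξ ∧ q.fm ξ = p.fm ξ ∧
      ∃ M, ∀ v ≥ M, Ext γ (upd ξ q (q.st ξ ++ [v]) (q.fc ξ) (q.fm ξ)) q := by
  obtain ⟨r, hr, M, hM⟩ := exists_bound (hp.anti h.le) (hp.valF h hd) (p.st ξ)
  refine ⟨mix ξ r p, mix_ext hr hp, (mix_dom le_rfl).2 hd, mix_st le_rfl, mix_fc le_rfl,
    mix_fm le_rfl, M, fun v hv => ?_⟩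
  refine addV_ext (Val_mix hr.1 hp) h ((mix_dom le_rfl).2 hd) ?_
  rw [mix_st le_rfl, mix_fc le_rfl, mix_fm le_rfl]
  exact (hM v hv).mono (mix_agr ξ r p).le

/-! ### Joining two conditions with the same stems -/

open Classical in
/-- the union of two conditions -/
noncomputable def jn (p q : Cn I) : Cn I :=
  .mk (fun η => p.dom η ∨ q.dom η) (fun η => if p.dom η then p.st η else q.st η)
    (fun η => if p.dom η then (if q.dom η then jf (p.fc η) (q.fc η) else p.fc η) else q.fc η)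
    (fun η => if p.dom η then (if q.dom η then jf (p.fm η) (q.fm η) else p.fm η) else q.fm η)

theorem Val_jn {ξ : I} {p q : Cn I} (hp : Val ξ p) (hq : Val ξ q) : Val ξ (jn p q) := by
  rw [Val_iff] at hp hq ⊢
  constructor
  · refine (hp.1.union hq.1).subset ?_
    rintro η ⟨h1, h2 | h2⟩
    · exact Or.inl ⟨h1, h2⟩
    · exact Or.inr ⟨h1, h2⟩
  · intro η hη hd
    by_cases h1 : p.dom η
    · by_cases h2 : q.dom η
      · simp only [jn, Cn.mk_fc, Cn.mk_fm, if_pos h1, if_pos h2]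
        exact (hp.2 η hη h1).join (hq.2 η hη h2)
      · simp only [jn, Cn.mk_fc, Cn.mk_fm, if_pos h1, if_neg h2]
        exact hp.2 η hη h1
    · simp only [jn, Cn.mk_fc, Cn.mk_fm, if_neg h1]
      exact hq.2 η hη (hd.resolve_left h1)

theorem jn_ext {ξ : I} {p q : Cn I} (hp : Val ξ p) (hq : Val ξ q)
    (hs : ∀ η < ξ, p.dom η → q.dom η → p.st η = q.st η) :
    Ext ξ (jn p q) p ∧ Ext ξ (jn p q) q := by
  refine ⟨⟨Val_jn hp hq, ?_⟩, ⟨Val_jn hp hq, ?_⟩⟩
  · rw [Le_iff]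
    intro η hη hd
    have e1 : (jn p q).st η = p.st η := by simp [jn, hd]
    rw [e1]
    refine ⟨Or.inl hd, List.prefix_refl _, fun t v g1 g2 => ?_, fun t j => ?_⟩
    · have g3 := g1.length_le
      have g4 := g2.length_le
      rw [List.length_append, List.length_singleton] at g4
      omega
    · by_cases h2 : q.dom η
      · simp only [jn, Cn.mk_fc, Cn.mk_fm, if_pos hd, if_pos h2]
        exact ⟨2 * j, jf_left _ _ _ _, jf_left _ _ _ _⟩
      · simp only [jn, Cn.mk_fc, Cn.mk_fm, if_pos hd, if_neg h2]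
        exact ⟨j, rfl, rfl⟩
  · rw [Le_iff]
    intro η hη hd
    have e1 : (jn p q).st η = q.st η := by
      by_cases h1 : p.dom η
      · simp only [jn, Cn.mk_st, if_pos h1]
        exact hs η hη h1 hd
      · simp only [jn, Cn.mk_st, if_neg h1]
    rw [e1]
    refine ⟨Or.inr hd, List.prefix_refl _, fun t v g1 g2 => ?_, fun t j => ?_⟩
    · have g3 := g1.length_le
      have g4 := g2.length_le
      rw [List.length_append, List.length_singleton] at g4
      omega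
    · by_cases h1 : p.dom η
      · simp only [jn, Cn.mk_fc, Cn.mk_fm, if_pos h1, if_pos hd]
        exact ⟨2 * j + 1, jf_right _ _ _ _, jf_right _ _ _ _⟩
      · simp only [jn, Cn.mk_fc, Cn.mk_fm, if_neg h1]
        exact ⟨j, rfl, rfl⟩

/-- Two conditions of the poset number `ξ + 1` with the same stem at `ξ`, one of them stronger below
`ξ`, are compatible. -/
theorem exists_merge {ξ ξ' : I} (hξ : ∀ η, η < ξ' ↔ η ≤ ξ) {p q : Cn I} (hp : Val ξ' p)
    (hq : Val ξ' q) (hpq : Le ξ p q) (hd : p.dom ξ) (hd' : q.dom ξ) (hst : p.st ξ = q.st ξ) :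
    ∃ u, Ext ξ' u p ∧ Ext ξ' u q ∧ Agr ξ u p ∧ u.dom ξ ∧ u.st ξ = p.st ξ := by
  have hlt : ξ < ξ' := (hξ ξ).2 le_rfl
  have h1 := addF_ext hp hd (hp.valF hlt hd) (hq.valF hlt hd')
  refine ⟨_, h1, ⟨h1.1, ?_⟩, upd_agr, Or.inl rfl, upd_st⟩
  rw [Le_iff] at hpq ⊢
  intro η hη hdη
  rcases ((hξ η).1 hη).lt_or_eq with h | h
  · obtain ⟨g1, g2, g3, g4⟩ := hpq η h hdη
    rw [upd_st' h.ne, upd_fc' h.ne, upd_fm' h.ne]
    exact ⟨Or.inr g1, g2, fun t v k1 k2 => (g3 t v k1 k2).mono ((upd_agr.anti h.le).le), g4⟩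
  · subst h
    rw [upd_st, upd_fc, upd_fm, hst]
    refine ⟨Or.inl rfl, List.prefix_refl _, fun t v g1 g2 => ?_,
      fun t j => ⟨2 * j + 1, jf_right _ _ _ _, jf_right _ _ _ _⟩⟩
    have g3 := g1.length_le
    have g4 := g2.length_le
    rw [List.length_append, List.length_singleton] at g4
    omega

end Pool.Agent.Helper34.SG
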