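import Pool.Agent.Helper34.SG.Names

/-!
# The index set
-/

namespace Pool.Agent.Helper34.SG

open Set Function

set_option linter.unusedSectionVars false

variable {I : Type} [LinearOrder I] [WellFoundedLT I]

namespace M

theorem Iio_card {c : Cardinal.{0}} (v : (Order.succ c).ord.ToType) :
    Cardinal.mk (Iio v) ≤ c := by
  have h4 : Cardinal.mk (Iio v) < Order.succ c := by
    simpa using Cardinal.mk_Iio_lt v
  exact Order.lt_succ_iff.1 h4

/-- small subsets of `(succ c).ord` are bounded -/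
theorem bdd_card {c : Cardinal.{0}} (hc : Cardinal.aleph0 ≤ c)
    (s : Set (Order.succ c).ord.ToType) (hs : Cardinal.mk s ≤ c) : ∃ w, ∀ v ∈ s, v < w := by
  by_contra h1
  push Not at h1
  have h2 : (univ : Set (Order.succ c).ord.ToType) ⊆ ⋃ v : s, Iic v.1 := by
    intro w _
    obtain ⟨v, hv, hwv⟩ := h1 w
    exact mem_iUnion.2 ⟨⟨v, hv⟩, hwv⟩
  have h3 : ∀ v : (Order.succ c).ord.ToType, Cardinal.mk (Iic v) ≤ c := by
    intro v
    have e : Iic v = insert v (Iio v) := by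
      ext w
      rw [mem_Iic, mem_insert_iff, mem_Iio, le_iff_eq_or_lt]
    rw [e]
    refine Cardinal.mk_insert_le.trans ?_
    calc Cardinal.mk (Iio v) + 1 ≤ c + c :=
          add_le_add (Iio_card v) (Cardinal.one_le_aleph0.trans hc)
      _ = c := Cardinal.add_eq_self hc
  have h4 := (Cardinal.mk_le_mk_of_subset h2).trans (Cardinal.mk_iUnion_le _)
  rw [Cardinal.mk_univ, Cardinal.mk_ord_toType] at h4
  have h5 : Cardinal.mk s * ⨆ v : s, Cardinal.mk (Iic v.1) ≤ c := by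
    calc Cardinal.mk s * ⨆ v : s, Cardinal.mk (Iic v.1) ≤ c * c :=
          mul_le_mul' hs (ciSup_le' fun v => h3 v.1)
      _ = c := Cardinal.mul_eq_self hc
  exact absurd (h4.trans h5) (not_le.2 (Order.lt_succ c))

end M

theorem exists_long : ∃ (I : Type) (_ : LinearOrder I) (_ : WellFoundedLT I) (κ : I)
    (sc : I → I), Long κ sc := by
  classical
  let W := (Order.succ (Cardinal.aleph 1)).ord.ToType
  let I := WithTop W
  have hwf : WellFoundedLT I := inferInstance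
  let sc : I → I := fun α => if h : (Ioi α).Nonempty then
    (wellFounded_lt (α := I)).min (Ioi α) h else α
  have hbdd : ∀ s : Set I, Cardinal.mk s ≤ Cardinal.aleph 1 → (∀ i ∈ s, i < ⊤) →
      ∃ δ < (⊤ : I), ∀ i ∈ s, i < δ := by
    intro s hs hlt
    obtain ⟨w, hw⟩ := M.bdd_card (Cardinal.aleph0_le_aleph 1) {v : W | (v : I) ∈ s} (by
      refine (Cardinal.mk_le_of_injective (f := fun v : {v : W | (v : I) ∈ s} =>
        (⟨(v.1 : I), v.2⟩ : s)) ?_).trans hs
      intro v v' h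
      have := congrArg Subtype.val h
      exact Subtype.ext (WithTop.coe_injective this))
    refine ⟨(w : I), WithTop.coe_lt_top w, fun i hi => ?_⟩
    obtain ⟨v, rfl⟩ := WithTop.ne_top_iff_exists.1 (hlt i hi).ne
    exact WithTop.coe_lt_coe.2 (hw v hi)
  have hsc : ∀ α < (⊤ : I), α < sc α ∧ ∀ η, α < η → sc α ≤ η := by
    intro α hα
    have h : (Ioi α).Nonempty := ⟨⊤, hα⟩
    have e : sc α = (wellFounded_lt (α := I)).min (Ioi α) h := by
      simp only [sc, dif_pos h]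
    rw [e]
    exact ⟨(wellFounded_lt (α := I)).min_mem (Ioi α) h,
      fun η hη => not_lt.1 ((wellFounded_lt (α := I)).not_lt_min (Ioi α) hη)⟩
  refine ⟨I, inferInstance, hwf, ⊤, sc, ⟨fun α hα => ?_, fun α hα η => ⟨fun h => ?_, fun h => ?_⟩,
    hbdd⟩⟩
  · obtain ⟨δ, hδ, h⟩ := hbdd {α} (by
      rw [Cardinal.mk_singleton]
      exact Cardinal.one_le_aleph0.trans (Cardinal.aleph0_le_aleph 1)) (by
      intro i hi
      rw [mem_singleton_iff.1 hi]
      exact hα)
    exact ((hsc α hα).2 δ (h α rfl)).trans_lt hδ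
  · by_contra hc
    exact absurd ((hsc α hα).2 η (not_le.1 hc)) (not_le.2 h)
  · exact h.trans_lt (hsc α hα).1

theorem exists_closed_point {κ : I} {sc : I → I} (h : Long κ sc) (g : I → I)
    (hg : ∀ α < κ, g α < κ) {α₀ : I} (h0 : α₀ < κ) :
    ∃ β < κ, α₀ < β ∧ (∀ α < β, ∃ δ, α < δ ∧ δ < β ∧ g δ < β) ∧
      ∀ s : Set I, s.Countable → (∀ i ∈ s, i < β) → ∃ δ < β, ∀ i ∈ s, i < δ := by
  classical
  let W := (Order.succ Cardinal.aleph0).ord.ToType
  have hW1 : Cardinal.mk W = Cardinal.aleph 1 := by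
    rw [Cardinal.mk_ord_toType, Cardinal.succ_aleph0]
  have hWc : ∀ w : W, Countable (Iio w) := fun w =>
    Cardinal.mk_le_aleph0_iff.1 (M.Iio_card w)
  have hWb : ∀ s : Set W, s.Countable → ∃ w, ∀ v ∈ s, v < w := fun s hs =>
    M.bdd_card le_rfl s (Cardinal.mk_le_aleph0_iff.2 hs.to_subtype)
  -- countable sets are bounded below `κ`
  have hbd : ∀ s : Set I, s.Countable → (∀ i ∈ s, i < κ) → ∃ δ < κ, ∀ i ∈ s, i < δ := by
    intro s hs h1
    refine h.bdd s ?_ h1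
    refine (Cardinal.mk_le_aleph0_iff.2 hs.to_subtype).trans ?_
    exact Cardinal.aleph0_le_aleph 1
  -- the recursion
  have step : ∀ (w : W) (b : ∀ v : W, v < w → {i : I // i < κ}), ∃ δ : {i : I // i < κ},
      α₀ < δ.1 ∧ ∀ v (hv : v < w), (b v hv).1 < δ.1 ∧ g (b v hv).1 < δ.1 := by
    intro w b
    have : Countable (Iio w) := hWc w
    obtain ⟨δ, hδ, h1⟩ := hbd ({α₀} ∪ (range (fun v : Iio w => (b v.1 v.2).1) ∪
      range (fun v : Iio w => g (b v.1 v.2).1)))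
      ((countable_singleton _).union ((countable_range _).union (countable_range _))) (by
        rintro i (hi | ⟨v, rfl⟩ | ⟨v, rfl⟩)
        · rw [mem_singleton_iff.1 hi]; exact h0
        · exact (b v.1 v.2).2
        · exact hg _ (b v.1 v.2).2)
    exact ⟨⟨δ, hδ⟩, h1 _ (Or.inl rfl), fun v hv =>
      ⟨h1 _ (Or.inr (Or.inl ⟨⟨v, hv⟩, rfl⟩)), h1 _ (Or.inr (Or.inr ⟨⟨v, hv⟩, rfl⟩))⟩⟩
  choose F hF1 hF2 using step
  let b : W → {i : I // i < κ} := (wellFounded_lt (α := W)).fix (C := fun _ => {i : I // i < κ}) F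
  have hb : ∀ w, b w = F w (fun v _ => b v) := fun w =>
    (wellFounded_lt (α := W)).fix_eq F w
  have hb1 : ∀ w, α₀ < (b w).1 := fun w => by rw [hb w]; exact hF1 w _
  have hb2 : ∀ v w, v < w → (b v).1 < (b w).1 ∧ g (b v).1 < (b w).1 := fun v w hvw => by
    rw [hb w]; exact hF2 w (fun v _ => b v) v hvw
  -- the closed point
  obtain ⟨δ, hδ, h1⟩ := h.bdd (range fun w => (b w).1) (by
    rw [← hW1]
    exact Cardinal.mk_range_le) (by
    rintro i ⟨w, rfl⟩
    exact (b w).2)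
  have hne : {δ : I | ∀ w, (b w).1 < δ}.Nonempty := ⟨δ, fun w => h1 _ ⟨w, rfl⟩⟩
  let β := (wellFounded_lt (α := I)).min {δ : I | ∀ w, (b w).1 < δ} hne
  have hβ1 : ∀ w, (b w).1 < β := (wellFounded_lt (α := I)).min_mem _ hne
  have hβ2 : ∀ i < β, ∃ w, i ≤ (b w).1 := by
    intro i hi
    by_contra hc
    push Not at hc
    exact (wellFounded_lt (α := I)).not_lt_min {δ : I | ∀ w, (b w).1 < δ} (x := i) hc hi
  have hβδ : β ≤ δ := not_lt.1 ((wellFounded_lt (α := I)).not_lt_min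
    {δ : I | ∀ w, (b w).1 < δ} (x := δ) fun w => h1 _ ⟨w, rfl⟩)
  obtain ⟨w₀, -⟩ := hWb ∅ countable_empty
  have : Nonempty W := ⟨w₀⟩
  refine ⟨β, hβδ.trans_lt hδ, (hb1 w₀).trans (hβ1 w₀), fun α hα => ?_, fun s hs hsβ => ?_⟩
  · obtain ⟨w, hw⟩ := hβ2 α hα
    obtain ⟨w', hw'⟩ := hWb {w} (countable_singleton w)
    obtain ⟨w'', hw''⟩ := hWb {w'} (countable_singleton w')
    exact ⟨(b w').1, hw.trans_lt (hb2 w w' (hw' w rfl)).1, hβ1 w',
      ((hb2 w' w'' (hw'' w' rfl)).2).trans (hβ1 w'')⟩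
  · choose! w hw using fun i (hi : i ∈ s) => hβ2 i (hsβ i hi)
    obtain ⟨w', hw'⟩ := hWb (w '' s) (hs.image w)
    exact ⟨(b w').1, hβ1 w', fun i hi =>
      (hw i hi).trans_lt (hb2 _ _ (hw' _ (mem_image_of_mem w hi))).1⟩

end Pool.Agent.Helper34.SG
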