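import Pool.Agent.Helper34.SG.Key
import Pool.Agent.Helper34.SG.Index
import Pool.Agent.Helper5.SG.Cover
import Pool.Agent.Helper64.SG.Stein1

/-!
# The core theorem
-/

namespace Pool.Agent.Helper34.SG

open Set Function

set_option linter.unusedSectionVars false

variable {I : Type} [LinearOrder I] [WellFoundedLT I]

namespace CoreAux

/-- `bdd_reg` for countable index types -/
theorem bdd_reg' {γ β : I} (hβ : β < γ)
    (hγ : ∀ s : Set I, s.Countable → (∀ i ∈ s, i < γ) → ∃ δ < γ, ∀ i ∈ s, i < δ)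
    {ι : Type} [Countable ι] (φ : ι → Cn I → Prop) (hφ : ∀ n, Reg γ (φ n)) :
    ∃ δ < γ, β ≤ δ ∧ ∀ δ', δ ≤ δ' → δ' ≤ γ → ∀ n p, Val γ p → (φ n p ↔ φ n (cut δ' p)) := by
  rcases isEmpty_or_nonempty ι with hι | hι
  · exact ⟨β, hβ, le_rfl, fun δ' _ _ n => hι.elim n⟩
  · obtain ⟨e, he⟩ := exists_surjective_nat ι
    obtain ⟨δ, h1, h2, h3⟩ := bdd_reg hβ hγ (fun n => φ (e n)) (fun n => hφ (e n))
    refine ⟨δ, h1, h2, fun δ' h4 h5 n p hp => ?_⟩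
    obtain ⟨k, rfl⟩ := he n
    exact h3 δ' h4 h5 k p hp

/-- bounded below `κ`, countable version -/
theorem Long.bdd' {κ : I} {sc : I → I} (h : Long κ sc) (s : Set I) (hs : s.Countable)
    (h1 : ∀ i ∈ s, i < κ) : ∃ δ < κ, ∀ i ∈ s, i < δ := by
  refine h.bdd s ?_ h1
  refine (Cardinal.mk_le_aleph0_iff.2 hs.to_subtype).trans ?_
  rw [← Cardinal.aleph_zero]
  exact Cardinal.aleph_le_aleph.2 zero_le_one

theorem supp_countable {γ : I} {p : Cn I} (hp : Val γ p) : {i | i < γ ∧ p.dom i}.Countable :=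
  ((Val_iff γ p).1 hp).1.countable

end CoreAux

open CoreAux

theorem main_comb {κ : I} {sc : I → I} (hκ : Long κ sc)
    {Nb : List Bool → List Bool → Finset (List Bool)} (hN : Stein Nb) {p : Cn I} (hp : Val κ p)
    (GG : RN κ → Cn I → Prop) (hGG : ∀ x q r, Ext κ r q → GG x q → GG x r)
    (C : ℕ → CN κ) (hC : ∀ n, NWD κ (C n).O p)
    (h1 : ∀ α < κ, ∀ q, Ext κ q p → ∃ q' x, Ext κ q' q ∧ GG x q' ∧
      ∀ j r, Ext κ r q' → ¬ FIn κ x (EC α (sc α)) j r)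
    (h2 : ∀ x₁ x₂ q, Ext κ q p → GG x₁ q → GG x₂ q →
      ∃ q' n, Ext κ q' q ∧ SumIn κ Nb x₁ x₂ (C n).O q') : False := by
  classical
  -- countable sets are bounded
  have hbd := fun s hs h => Long.bdd' hκ s hs h
  -- not covered by null sets
  let NotN : I → RN κ → Cn I → Prop := fun α x a =>
    ∀ (N : NS α) r, Ext κ r a → ¬ Covers κ x.toCN.O N r
  have h1' : ∀ α < κ, ∀ q, Ext κ q p → ∃ q' x, Ext κ q' q ∧ GG x q' ∧ NotN α x q' := by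
    intro α hα q hq
    obtain ⟨q', x, hq', hx, h3⟩ := h1 α hα q hq
    refine ⟨q', x, hq', hx, fun N r hr hcov => ?_⟩
    obtain ⟨j, r', hr', h4⟩ := covering (hκ.lt_sc α hα) (hκ.sc_lt α hα) x N hr.1 hcov
    exact h3 j r' (hr'.trans hr) h4
  -- maximal antichains
  choose A hAc hAv hAi hAm using fun α : I => exists_antichain κ
    (fun a => Ext κ a p ∧ ∃ x, GG x a ∧ NotN α x a)
  have hAx : ∀ α, ∀ a : A α, ∃ x, GG x a.1 ∧ NotN α x a.1 := fun α a => (hAv α a.1 a.2).2.2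
  choose X hX1 hX2 using hAx
  have hA1 : ∀ α, ∀ a ∈ A α, Ext κ a p := fun α a ha => (hAv α a ha).2.1
  -- density
  have hAd : ∀ α < κ, ∀ q, Ext κ q p → ∃ a ∈ A α, ∃ u, Ext κ u q ∧ Ext κ u a := by
    intro α hα q hq
    obtain ⟨q', x, hq', hx, h3⟩ := h1' α hα q hq
    obtain ⟨a, ha, h4⟩ := hAm α q' hq'.1 ⟨hq'.trans hq, x, hx, h3⟩
    unfold Inc at h4
    rw [not_not] at h4
    obtain ⟨u, hu, hu1, hu2⟩ := h4
    exact ⟨a, ha, u, Ext.trans ⟨hu, hu1⟩ hq', ⟨hu, hu2⟩⟩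
  -- some element below `κ`
  obtain ⟨o, ho, -⟩ := hbd ∅ Set.countable_empty (fun i hi => absurd hi (notMem_empty i))
  -- bounds for the names
  have hG : ∀ α : I, ∃ g < κ, (∀ a ∈ A α, ∀ i < κ, a.dom i → i < g) ∧
      ∀ δ', g ≤ δ' → δ' ≤ κ → ∀ (a : A α) σ q, Val κ q →
        ((X α a).D σ q ↔ (X α a).D σ (cut δ' q)) := by
    intro α
    have : Countable (A α) := (hAc α).to_subtype
    obtain ⟨δ₁, h3, -, h4⟩ := bdd_reg' ho hbd
      (fun n : A α × List Bool => (X α n.1).D n.2) (fun n => (X α n.1).reg n.2)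
    obtain ⟨δ₂, h5, h6⟩ := hbd (⋃ a ∈ A α, {i | i < κ ∧ a.dom i})
      ((hAc α).biUnion fun a ha => supp_countable (hAv α a ha).1) (by
        intro i hi
        simp only [mem_iUnion, mem_ofPred_eq] at hi
        obtain ⟨a, -, hi, -⟩ := hi
        exact hi)
    refine ⟨max δ₁ δ₂, max_lt h3 h5, fun a ha i hi hd => ?_, fun δ' h7 h8 a σ q hq => ?_⟩
    · refine lt_of_lt_of_le (h6 i ?_) (le_max_right _ _)
      simp only [mem_iUnion, mem_ofPred_eq]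
      exact ⟨a, ha, hi, hd⟩
    · exact h4 δ' ((le_max_left _ _).trans h7) h8 (a, σ) q hq
  choose g hg1 hg2 hg3 using hG
  obtain ⟨α₀, hα₀, -, hC0⟩ := bdd_reg' ho hbd
    (fun n : ℕ × List Bool => (C n.1).O n.2) (fun n => (C n.1).reg n.2)
  -- the closed point
  obtain ⟨β, hβ, hαβ, hgβ, hβc⟩ := exists_closed_point hκ g (fun α _ => hg1 α) hα₀
  obtain ⟨a, ha, -⟩ := hAd β hβ p (Ext.refl hp)
  set x : RN κ := X β ⟨a, ha⟩ with hxdef
  have hx1 : GG x a := hX1 β ⟨a, ha⟩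
  have hx2 : NotN β x a := hX2 β ⟨a, ha⟩
  have hap := hA1 β a ha
  obtain ⟨D, hDc, hD⟩ := key hβ.le x.toCN
  -- `δ`
  have : Countable D := hDc.to_subtype
  obtain ⟨δ₁, hδ₁, hαδ₁, h3⟩ := bdd_reg' hαβ hβc
    (fun n : D × List Bool => n.1.1.O n.2) (fun n => n.1.1.reg n.2)
  obtain ⟨δ₂, hδ₂, h4'⟩ := hβc ({δ₁} ∪ {i | i < β ∧ a.dom i})
    ((Set.countable_singleton _).union (supp_countable (hap.1.anti hβ.le))) (by
      rintro i (rfl | hi)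
      · exact hδ₁
      · exact hi.1)
  obtain ⟨δ, hδ₂δ, hδ, hgδ⟩ := hgβ δ₂ hδ₂
  have h4 : ∀ i ∈ ({δ₁} ∪ {i | i < β ∧ a.dom i} : Set I), i < δ := fun i hi =>
    (h4' i hi).trans hδ₂δ
  have hδ₁δ : δ₁ < δ := h4 δ₁ (Or.inl rfl)
  have hδκ : δ < κ := hδ.trans hβ
  obtain ⟨a', ha', u, hua, hua'⟩ := hAd δ hδκ a hap
  set x' : RN κ := X δ ⟨a', ha'⟩ with hx'def
  have hx'1 : GG x' a' := hX1 δ ⟨a', ha'⟩
  have hx'2 : NotN δ x' a' := hX2 δ ⟨a', ha'⟩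
  have hbx' : ∀ σ q, Val κ q → (x'.D σ q ↔ x'.D σ (cut β q)) := fun σ q hq =>
    hg3 δ β hgδ.le hβ.le ⟨a', ha'⟩ σ q hq
  obtain ⟨q', n, hq', hsum⟩ := h2 x' x u (hua.trans hap) (hGG _ _ _ hua' hx'1)
    (hGG _ _ _ hua hx1)
  set xr : RN β := x'.res β hβ.le (fun σ p hp h => (hbx' σ p hp).1 h) with hxr
  have hxrD : ∀ σ q, Val κ q → (xr.D σ q ↔ x'.D σ q) := fun σ q hq => (hbx' σ q hq).symm
  -- the names of `C n`
  have hCd : ∀ δ', α₀ ≤ δ' → δ' ≤ κ → ∀ σ q, Val κ q → ((C n).O σ q ↔ (C n).O σ (cut δ' q)) :=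
    fun δ' h5 h6 σ q hq => hC0 δ' h5 h6 (n, σ) q hq
  have hα₀δ : α₀ ≤ δ := hαδ₁.trans hδ₁δ.le
  let Cδ : CN δ := (C n).res δ hδκ.le
  have hCδ : ∀ σ q, Val κ q → (Cδ.O σ q ↔ (C n).O σ q) := fun σ q hq =>
    (hCd δ hα₀δ hδκ.le σ q hq).symm
  -- `T ⊆ C - x'`
  have hSub : Sub κ q' x.toCN.O (subO β Cδ.O xr Nb) := by
    intro σ r hr hC' r' hr' hDr'
    obtain ⟨q₂, hq₂, ρ, hρ, hDρ, h5⟩ := hC' r' (hr'.anti hβ.le)
    set r₁ := mix β q₂ r' with hr₁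
    have hr₁e : Ext κ r₁ r' := mix_ext hq₂ hr'.1
    obtain ⟨r₂, τ', hr₂, hτ', hDτ'⟩ := x.dense ρ.length r₁ hr₁e.1
    have hστ : σ <+: τ' := by
      have hDσ : x.D σ r₂ := (x.reg σ).mono _ _ (hr₂.trans hr₁e) hDr'
      rcases x.cons r₂ σ τ' hr₂.1 hDσ hDτ' with h | h
      · exact h
      · have h6 := h.length_le
        rw [h.eq_of_length (by omega)]
    have hr₂q₂ : Ext β r₂ q₂ := (hr₂.anti hβ.le).trans_le (mix_agr β q₂ r').le
    refine hsum r₂ (((hr₂.trans hr₁e).trans hr').trans hr) ρ τ' hτ'.symm ?_ hDτ' ?_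
    · exact (hxrD ρ r₂ hr₂.1).1 ((xr.reg ρ).mono _ _ hr₂q₂ hDρ)
    · intro l hl
      refine (hCδ l r₂ hr₂.1).1 ?_
      exact (Cδ.reg l).mono _ _ (hr₂q₂.anti hδ.le) (h5 τ' hτ' hστ l hl)
  have hmono : ∀ σ p q, Ext β q p → subO β Cδ.O xr Nb σ p → subO β Cδ.O xr Nb σ q :=
    fun σ p q hqp h r hr => h r (hr.trans hqp)
  rcases hD q' hq'.1 _ hmono hSub with ⟨r', hr', N, hcov⟩ | ⟨S, hS, q₂, hq₂, hsub, hNN⟩
  · exact hx2 N r' ((hr'.trans hq').trans hua) hcov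
  · -- Steinhaus
    have hSδ : ∀ σ q, Val β q → (S.O σ q ↔ (S.res δ hδ.le).O σ q) := fun σ q hq =>
      h3 δ hδ₁δ.le hδ.le (⟨S, hS⟩, σ) q hq
    have hq₂v : Ext β q₂ q' := hq₂
    have hNW : NWD δ Cδ.O q₂ := by
      intro r hr σ
      have h5 : Ext κ (mix δ r (mix β q₂ q')) p := by
        have e1 : Ext κ (mix β q₂ q') q' := mix_ext hq₂ hq'.1
        have e2 : Ext δ r (mix β q₂ q') :=
          ⟨hr.1, hr.2.trans ((mix_agr β q₂ q').symm.anti hδ.le).le⟩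
        exact (((mix_ext e2 e1.1).trans e1).trans hq').trans (hua.trans hap)
      obtain ⟨r', τ, hr', hστ, hO⟩ := hC n _ h5 σ
      refine ⟨r', τ, ?_, hστ, (hCδ τ r' hr'.1).2 hO⟩
      exact (hr'.anti hδκ.le).trans_le (mix_agr δ r _).le
    have hNN' : NN δ (S.res δ hδ.le).O q₂ := by
      obtain ⟨m, hm⟩ := hNN
      refine ⟨m, fun q hq w hw hin => ?_⟩
      refine hm (mix δ q q₂) (mix_ext hq hq₂.1) w hw fun σ hσ => ?_
      have h5 := hin σ hσ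
      have h6 : Val β (mix δ q q₂) := (mix_ext hq hq₂.1).1
      rw [hSδ σ _ h6]
      exact ((S.res δ hδ.le).reg σ).mono _ _ ((mix_agr δ q q₂).ext hq.1) h5
    have hsub' : Sub β q₂ (S.res δ hδ.le).O (subO β Cδ.O xr Nb) := fun σ r hr h5 =>
      (hSδ σ r hr.1).1 (hsub σ r hr h5)
    obtain ⟨N, r, hr, hcov⟩ := steinhaus hδ.le hN (S.res δ hδ.le) Cδ xr hq₂.1 hNW hNN' hsub'
    have h5 : Ext β r q' := hr.trans hq₂
    refine hx'2 N (mix β r q') (((mix_ext h5 hq'.1).trans hq').trans hua') ?_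
    intro m w q hq hU σ hσ q₃ hq₃ hD₃
    have h6 : Ext β q r := (hq.anti hβ.le).trans_le (mix_agr β r q').le
    have h7 := hcov m w q h6 hU σ hσ q₃ (hq₃.anti hβ.le)
    exact h7 ((hxrD σ q₃ hq₃.1).2 hD₃)

end Pool.Agent.Helper34.SG
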