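import Mathlib

/-!
# A finite support iteration of Laver-Hechler forcing (definitions)

`I` is a well-ordered set of coordinates. For `ξ : I` the poset number `ξ` is the set of the
conditions `p` with `Val ξ p` with the order `Le ξ`; it only sees the coordinates below `ξ`.
At a coordinate `η` a condition has a stem `p.st η : List ℕ` and a side condition, which is a
family of pairs: the pair `(p.fc η t j, p.fm η t j)` means: if the condition `p.fc η t j` (of the
poset number `η`) is in the generic filter, then the value following `t` must be at least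
`p.fm η t j`.
-/

namespace Pool.Agent.Helper34.SG

open Set

/-- Raw conditions. -/
inductive Cn (I : Type) : Type
  | top : Cn I
  | mk (dom : I → Prop) (st : I → List ℕ) (fc : I → List ℕ → ℕ → Cn I)
      (fm : I → List ℕ → ℕ → ℕ) : Cn I

variable {I : Type}

/-- the support -/
def Cn.dom : Cn I → I → Prop
  | .top => fun _ => False
  | .mk d _ _ _ => d

/-- the stems -/
def Cn.st : Cn I → I → List ℕ
  | .top => fun _ => []
  | .mk _ s _ _ => s

/-- the conditions of the side conditions -/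
def Cn.fc : Cn I → I → List ℕ → ℕ → Cn I
  | .top => fun _ _ _ => .top
  | .mk _ _ c _ => c

/-- the bounds of the side conditions -/
def Cn.fm : Cn I → I → List ℕ → ℕ → ℕ
  | .top => fun _ _ _ => 0
  | .mk _ _ _ m => m

/-- the weakest condition -/
def emp (I : Type) : Cn I := .top

@[simp] theorem emp_dom (η : I) : ¬ (emp I).dom η := fun h => h

@[simp] theorem Cn.mk_dom (d : I → Prop) (s : I → List ℕ) (c : I → List ℕ → ℕ → Cn I)
    (m : I → List ℕ → ℕ → ℕ) : (Cn.mk d s c m).dom = d := rfl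

@[simp] theorem Cn.mk_st (d : I → Prop) (s : I → List ℕ) (c : I → List ℕ → ℕ → Cn I)
    (m : I → List ℕ → ℕ → ℕ) : (Cn.mk d s c m).st = s := rfl

@[simp] theorem Cn.mk_fc (d : I → Prop) (s : I → List ℕ) (c : I → List ℕ → ℕ → Cn I)
    (m : I → List ℕ → ℕ → ℕ) : (Cn.mk d s c m).fc = c := rfl

@[simp] theorem Cn.mk_fm (d : I → Prop) (s : I → List ℕ) (c : I → List ℕ → ℕ → Cn I)
    (m : I → List ℕ → ℕ → ℕ) : (Cn.mk d s c m).fm = m := rfl

/-- A set of conditions with an order. -/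
structure VL (I : Type) where
  val : Cn I → Prop
  le : Cn I → Cn I → Prop

/-- `a` and `b` are incompatible -/
def VL.inc (D : VL I) (a b : Cn I) : Prop := ¬ ∃ u, D.val u ∧ D.le u a ∧ D.le u b

/-- The recursion step. -/
def vstep [LT I] (ξ : I) (D : ∀ η : I, η < ξ → VL I) : VL I where
  val := fun r => {η | η < ξ ∧ r.dom η}.Finite ∧ ∀ η (h : η < ξ), r.dom η →
    (∀ t j, (D η h).val (r.fc η t j)) ∧
      ∀ t p, (D η h).val p → ∃ q, (D η h).val q ∧ (D η h).le q p ∧
        ∃ M, ∀ j, M < r.fm η t j → (D η h).inc q (r.fc η t j)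
  le := fun p q => ∀ η (h : η < ξ), q.dom η → p.dom η ∧ q.st η <+: p.st η ∧
    (∀ t v, q.st η <+: t → t ++ [v] <+: p.st η →
      ∀ j, v < q.fm η t j → (D η h).inc p (q.fc η t j)) ∧
    ∀ t j, ∃ j', p.fc η t j' = q.fc η t j ∧ p.fm η t j' = q.fm η t j

variable [LinearOrder I] [WellFoundedLT I]

/-- The poset number `ξ`. -/
noncomputable def VV (ξ : I) : VL I :=
  (wellFounded_lt (α := I)).fix (C := fun _ => VL I) (fun ξ D => vstep ξ D) ξ

/-- valid conditions of the poset number `ξ` -/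
def Val (ξ : I) (p : Cn I) : Prop := (VV ξ).val p

/-- the order of the poset number `ξ` -/
def Le (ξ : I) (p q : Cn I) : Prop := (VV ξ).le p q

/-- `a` and `b` are incompatible in the poset number `ξ` -/
def Inc (ξ : I) (a b : Cn I) : Prop := ¬ ∃ u, Val ξ u ∧ Le ξ u a ∧ Le ξ u b

/-- `q` is a valid extension of `p` in the poset number `ξ` -/
def Ext (ξ : I) (q p : Cn I) : Prop := Val ξ q ∧ Le ξ q p

theorem VV_eq (ξ : I) : VV ξ = vstep ξ (fun η _ => VV η) := by
  unfold VV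
  rw [(wellFounded_lt (α := I)).fix_eq]

/-- valid side conditions at `η` -/
def ValF (η : I) (c : List ℕ → ℕ → Cn I) (m : List ℕ → ℕ → ℕ) : Prop :=
  (∀ t j, Val η (c t j)) ∧
    ∀ t p, Val η p → ∃ q, Ext η q p ∧ ∃ M, ∀ j, M < m t j → Inc η q (c t j)

/-- the value `v` following `t` is allowed by the side condition `(c, m)` (this is forced by
`p`) -/
def Ob (η : I) (p : Cn I) (c : List ℕ → ℕ → Cn I) (m : List ℕ → ℕ → ℕ) (t : List ℕ) (v : ℕ) :
    Prop := ∀ j, v < m t j → Inc η p (c t j)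

theorem Val_iff (ξ : I) (r : Cn I) : Val ξ r ↔ {η | η < ξ ∧ r.dom η}.Finite ∧
    ∀ η < ξ, r.dom η → ValF η (r.fc η) (r.fm η) := by
  unfold Val
  rw [VV_eq]
  constructor
  · rintro ⟨h1, h2⟩
    refine ⟨h1, fun η hη hd => ⟨(h2 η hη hd).1, fun t p hp => ?_⟩⟩
    obtain ⟨q, h3, h4, h5⟩ := (h2 η hη hd).2 t p hp
    exact ⟨q, ⟨h3, h4⟩, h5⟩
  · rintro ⟨h1, h2⟩
    refine ⟨h1, fun η hη hd => ⟨(h2 η hη hd).1, fun t p hp => ?_⟩⟩
    obtain ⟨q, ⟨h3, h4⟩, h5⟩ := (h2 η hη hd).2 t p hp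
    exact ⟨q, h3, h4, h5⟩

theorem Le_iff (ξ : I) (p q : Cn I) : Le ξ p q ↔ ∀ η < ξ, q.dom η →
    p.dom η ∧ q.st η <+: p.st η ∧
    (∀ t v, q.st η <+: t → t ++ [v] <+: p.st η → Ob η p (q.fc η) (q.fm η) t v) ∧
    ∀ t j, ∃ j', p.fc η t j' = q.fc η t j ∧ p.fm η t j' = q.fm η t j := by
  unfold Le
  rw [VV_eq]
  exact Iff.rfl

end Pool.Agent.Helper34.SG
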