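import Pool.Agent.Helper34.SG.Names
import Pool.Agent.Helper5.SG.Ccc

/-!
# Limit steps of the key lemma
-/

namespace Pool.Agent.Helper34.SG

open Set Function

set_option linter.unusedSectionVars false

variable {I : Type} [LinearOrder I] [WellFoundedLT I]


theorem le_of_supp {δ γ : I} {a p : Cn I} (ha : ∀ η < γ, a.dom η → η < δ) (h : Le δ p a) :
    Le γ p a := by
  rw [Le_iff] at h ⊢
  exact fun η hη hd => h η (ha η hη hd) hd

theorem bdd_reg {γ β : I} (hβ : β < γ)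
    (hγ : ∀ s : Set I, s.Countable → (∀ i ∈ s, i < γ) → ∃ δ < γ, ∀ i ∈ s, i < δ)
    (φ : ℕ → Cn I → Prop) (hφ : ∀ n, Reg γ (φ n)) :
    ∃ δ < γ, β ≤ δ ∧ ∀ δ', δ ≤ δ' → δ' ≤ γ → ∀ n p, Val γ p → (φ n p ↔ φ n (cut δ' p)) := by
  choose A hA1 hA2 hA3 hA4 using fun n =>
    exists_antichain γ (fun a : Cn I => φ n a ∨ ∀ q, Ext γ q a → ¬ φ n q)
  have hs : ({β} ∪ ⋃ n, ⋃ a ∈ A n, {η | η < γ ∧ a.dom η} : Set I).Countable := by
    refine (Set.countable_singleton β).union (Set.countable_iUnion fun n =>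
      (hA1 n).biUnion fun a ha => ?_)
    exact (((Val_iff γ a).1 (hA2 n a ha).1).1).countable
  obtain ⟨δ, hδ, hδ2⟩ := hγ _ hs (by
    rintro i (hi | hi)
    · rw [Set.mem_singleton_iff.1 hi]; exact hβ
    · simp only [Set.mem_iUnion] at hi
      obtain ⟨n, a, ha, hi⟩ := hi
      exact hi.1)
  refine ⟨δ, hδ, (hδ2 β (Or.inl rfl)).le, fun δ' h1 h2 n p hp => ⟨fun hφp => ?_, fun h => ?_⟩⟩
  · refine (hφ n).dense _ (Val_cut γ (hp.anti h2)) fun q hq => ?_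
    by_contra hc
    have hc' : ∀ r, Ext γ r q → ¬ φ n r := fun r hr h => hc ⟨r, hr, h⟩
    obtain ⟨a, ha, hqa⟩ := hA4 n q hq.1 (Or.inr hc')
    unfold Inc at hqa
    push Not at hqa
    obtain ⟨u, hu1, hu2, hu3⟩ := hqa
    rcases (hA2 n a ha).2 with h | h
    · exact hc' u ⟨hu1, hu2⟩ ((hφ n).mono _ _ ⟨hu1, hu3⟩ h)
    · have h3 : Ext δ' u p :=
        ⟨hu1.anti h2, ((hu2.trans hq.2).anti h2).trans (cut_agr δ' p).le⟩
      have h4 : Ext γ (mix δ' u p) p := mix_ext h3 hp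
      refine h _ ⟨h4.1, le_of_supp (δ := δ') (fun η hη hd => ?_)
        ((mix_agr δ' u p).le.trans (hu3.anti h2))⟩ ((hφ n).mono _ _ h4 hφp)
      refine (hδ2 η (Or.inr ?_)).trans_le h1
      simp only [Set.mem_iUnion]
      exact ⟨n, a, ha, hη, hd⟩
  · exact (hφ n).mono _ _ ⟨hp, cut_le (Le.refl δ' p)⟩ h

theorem key_res {β δ γ : I} (hβ : β ≤ δ) (hδ : δ ≤ γ) (T : CN γ)
    (hT : ∀ σ p, Val γ p → T.O σ p → T.O σ (cut δ p)) (D : Set (CN β))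
    (h : KeyD (T.res δ hδ) D) : KeyD T D := by
  intro r hr C hC hsub
  have h1 : Sub δ r (T.res δ hδ).O C := by
    intro σ q hq hCq
    have h2 : Ext γ (mix δ q r) r := mix_ext hq hr
    have h3 : C σ (mix δ q r) :=
      hC σ q _ (((mix_agr δ q r).ext hq.1).anti hβ) hCq
    have h4 := hT σ _ h2.1 (hsub σ _ h2 h3)
    exact (T.reg σ).mono _ _ (cut_mono ((mix_agr δ q r).symm.ext (h2.1.anti hδ))) h4
  rcases h r (hr.anti hδ) C hC h1 with ⟨r', hr', N, hN⟩ | h2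
  · refine Or.inl ⟨mix δ r' r, mix_ext hr' hr, N, fun m u q hq hU σ hσ => ?_⟩
    have h3 : Ext δ q r' := (hq.anti hδ).trans_le (mix_agr δ r' r).le
    exact (T.reg σ).mono _ _ ⟨hq.1, cut_le (Le.refl δ q)⟩ (hN m u q h3 hU σ hσ)
  · exact Or.inr h2

theorem key_lim {β γ : I} (T : CN γ) (s : Set I) (hne : s.Nonempty) (hs : ∀ δ ∈ s, β ≤ δ ∧ δ < γ)
    (hc : ∀ i < γ, ∃ δ ∈ s, i < δ) (D : I → Set (CN β))
    (h : ∀ δ (hδ : δ ∈ s), KeyD (T.res δ (hs δ hδ).2.le) (D δ)) : KeyD T (⋃ δ ∈ s, D δ) := by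
  intro r hr C hC hsub
  have hfin := ((Val_iff γ r).1 hr).1
  obtain ⟨δ, hδ, hsupp⟩ : ∃ δ ∈ s, ∀ η < γ, r.dom η → η < δ := by
    rcases Set.eq_empty_or_nonempty {η | η < γ ∧ r.dom η} with he | hne'
    · obtain ⟨δ, hδ⟩ := hne
      refine ⟨δ, hδ, fun η hη hd => ?_⟩
      have : η ∈ {η | η < γ ∧ r.dom η} := ⟨hη, hd⟩
      rw [he] at this
      exact absurd this (Set.notMem_empty η)
    · obtain ⟨i, hi, hmax⟩ := Set.exists_max_image {η | η < γ ∧ r.dom η} id hfin hne'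
      obtain ⟨δ, hδ, hiδ⟩ := hc i hi.1
      exact ⟨δ, hδ, fun η hη hd => (hmax η ⟨hη, hd⟩).trans_lt hiδ⟩
  have hδγ := (hs δ hδ).2.le
  have hβ := (hs δ hδ).1
  have hcut : ∀ q, Ext δ q r → Ext γ (cut δ q) r := fun q hq =>
    ⟨Val_cut γ hq.1, le_of_supp hsupp ((cut_agr δ q).le.trans hq.2)⟩
  have h1 : Sub δ r (T.res δ hδγ).O C := by
    intro σ q hq hCq
    exact hsub σ _ (hcut q hq) (hC σ q _ (((cut_agr δ q).ext hq.1).anti hβ) hCq)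
  rcases h δ hδ r (hr.anti hδγ) C hC h1 with ⟨r', hr', N, hN⟩ | ⟨S, hS, h2⟩
  · refine Or.inl ⟨cut δ r', hcut r' hr', N, fun m u q hq hU σ hσ => ?_⟩
    have h3 : Ext δ q r' := (hq.anti hδγ).trans_le (cut_agr δ r').le
    exact (T.reg σ).mono _ _ ⟨hq.1, cut_le (Le.refl δ q)⟩ (hN m u q h3 hU σ hσ)
  · exact Or.inr ⟨S, Set.mem_biUnion hδ hS, h2⟩


end Pool.Agent.Helper34.SG
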