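import Pool.Agent.Helper34.SG.Names
import Pool.Agent.Helper5.SG.Ccc

/-!
# Names of closed null sets from dense sets
-/

namespace Pool.Agent.Helper34.SG

open Set Function

set_option linter.unusedSectionVars false

variable {I : Type} [LinearOrder I] [WellFoundedLT I]


open Classical in
theorem exists_NS (β : I) (r : Cn I) (Φ : ℕ → Finset (List Bool) → Cn I → Prop)
    (mono : ∀ m u p q, Ext β q p → Φ m u p → Φ m u q)
    (small : ∀ m u p, Φ m u p → wt u ≤ (1 / 2) ^ m)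
    (dense : ∀ m p, Ext β p r → ∃ q u, Ext β q p ∧ Φ m u q) :
    ∃ N : NS β, ∀ m u q, Ext β q r → N.U m u q → Φ m u q := by
  choose A hA1 hA2 hA3 hA4 using fun m =>
    exists_antichain β (fun a : Cn I => (Ext β a r ∧ ∃ u, Φ m u a) ∨ Inc β a r)
  let v : ℕ → Cn I → Finset (List Bool) := fun m a =>
    if h : ∃ u, Φ m u a then h.choose else ∅
  have hv : ∀ m a, (∃ u, Φ m u a) → Φ m (v m a) a := by
    intro m a h
    simp only [v, dif_pos h]
    exact h.choose_spec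
  have hD : ∀ m p, Val β p → ∃ q, Ext β q p ∧
      ((Ext β q r ∧ ∃ u, Φ m u q) ∨ Inc β q r) := by
    intro m p hp
    by_cases h : Inc β p r
    · exact ⟨p, Ext.refl hp, Or.inr h⟩
    · unfold Inc at h
      push Not at h
      obtain ⟨u0, h1, h2, h3⟩ := h
      obtain ⟨q, u, hq, hu⟩ := dense m u0 ⟨h1, h3⟩
      exact ⟨q, hq.trans ⟨h1, h2⟩, Or.inl ⟨hq.trans ⟨h1, h3⟩, u, hu⟩⟩
  refine ⟨{ U := fun m u p => ∃ a ∈ A m, Le β p a ∧ u = v m a
            mono := fun m u p q hq ⟨a, ha, h1, h2⟩ => ⟨a, ha, hq.2.trans h1, h2⟩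
            func := ?_, dense := ?_, small := ?_ }, ?_⟩
  · rintro m u u' p hp ⟨a, ha, h1, rfl⟩ ⟨a', ha', h1', rfl⟩
    by_cases h : a = a'
    · rw [h]
    · exact absurd (hA3 m a ha a' ha' h) fun hc => hc ⟨p, hp, h1, h1'⟩
  · intro m p hp
    obtain ⟨q, hq, h1⟩ := hD m p hp
    obtain ⟨a, ha, h2⟩ := hA4 m q hq.1 h1
    unfold Inc at h2
    push Not at h2
    obtain ⟨w, hw1, hw2, hw3⟩ := h2
    exact ⟨w, v m a, Ext.trans ⟨hw1, hw2⟩ hq, a, ha, hw3, rfl⟩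
  · rintro m u p ⟨a, ha, h1, rfl⟩
    by_cases h : ∃ u, Φ m u a
    · exact small m _ _ (hv m a h)
    · simp only [v, dif_neg h, wt, Finset.sum_empty]
      positivity
  · rintro m u q hq ⟨a, ha, h1, rfl⟩
    rcases (hA2 m a ha).2 with ⟨-, h⟩ | h
    · exact mono m _ _ _ ⟨hq.1, h1⟩ (hv m a h)
    · exact absurd ⟨q, hq.1, h1, hq.2⟩ h

theorem base_case (β : I) (T : CN β) (r : Cn I) (hr : Val β r) :
    (∃ r', Ext β r' r ∧ ∃ N : NS β, Covers β T.O N r') ∨ ∃ q, Ext β q r ∧ NN β T.O q := by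
  by_cases h : ∀ m p, Ext β p r → ∃ q u, Ext β q p ∧ (wt u ≤ (1 / 2) ^ m ∧ InC T.O u q)
  · obtain ⟨N, hN⟩ := exists_NS β r (fun m u q => wt u ≤ (1 / 2) ^ m ∧ InC T.O u q)
      (fun m u p q hq h => ⟨h.1, fun σ hσ => (T.reg σ).mono _ _ hq (h.2 σ hσ)⟩)
      (fun m u p h => h.1) h
    exact Or.inl ⟨r, Ext.refl hr, N, fun m u q hq hU => (hN m u q hq hU).2⟩
  · push Not at h
    obtain ⟨m, p, hp, h1⟩ := h
    exact Or.inr ⟨p, hp, m, fun q hq u hu => h1 q u hq hu⟩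


end Pool.Agent.Helper34.SG
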