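import Pool.Agent.Helper34.SG.Names
import Pool.Agent.Helper50.SG.Step

/-!
# The successor step of the key lemma
-/

namespace Pool.Agent.Helper34.SG

open Set Function

set_option linter.unusedSectionVars false

variable {I : Type} [LinearOrder I] [WellFoundedLT I]

theorem key_succ {β ξ ξ' : I} (hβ : β ≤ ξ) (hξ : ∀ η, η < ξ' ↔ η ≤ ξ) (T : CN ξ')
    (D : List ℕ → ℕ → Set (CN β)) (h : ∀ t k, KeyD (T.ndk hξ t k) (D t k)) :
    KeyD T (⋃ t, ⋃ k, D t k) := by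
  intro r hr C hCm hsub
  have hlt : ξ < ξ' := (hξ ξ).2 le_rfl
  by_contra hcon
  push Not at hcon
  obtain ⟨hc1, hc2⟩ := hcon
  obtain ⟨r₀, hr₀, hd₀, -, -⟩ := exists_dom ξ hr
  obtain ⟨r', hr', N, hN⟩ := one_step (r := r₀) hβ hξ T hr₀.1 hd₀ (by
    intro p hp
    have hdp : p.dom ξ := by
      have := (Le_iff ξ' p r₀).1 hp.2 ξ hlt hd₀
      exact this.1
    obtain ⟨r₁, hr₁, M, hM⟩ := exists_bound (hp.1.anti hlt.le) (hp.1.valF hlt hdp) (p.st ξ)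
    set q₀ := mix ξ r₁ p with hq₀
    have hq₀p : Ext ξ' q₀ p := mix_ext hr₁ hp.1
    have hq₀r : Ext ξ' q₀ r := (hq₀p.trans hp).trans hr₀
    have hq₀d : q₀.dom ξ := (mix_dom le_rfl).2 hdp
    have hq₀s : q₀.st ξ = p.st ξ := mix_st le_rfl
    have hq₀c : q₀.fc ξ = p.fc ξ := mix_fc le_rfl
    have hq₀m : q₀.fm ξ = p.fm ξ := mix_fm le_rfl
    have hq₀r₁ : Ext ξ q₀ r₁ := mix_ext' hr₁.1
    have hS : Sub ξ q₀ (T.ndk hξ (p.st ξ) M).O C := by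
      intro σ q' hq' hCq'
      -- an extension `r₂` of `q'` together with the coordinate `ξ` of `p`
      have key : ∀ r₂, Ext ξ r₂ q' → Ext ξ' (mix ξ r₂ q₀) q₀ ∧ Ext ξ (mix ξ r₂ q₀) r₂ ∧
          C σ (mix ξ r₂ q₀) := by
        intro r₂ hr₂
        have e1 : Ext ξ' (mix ξ r₂ q₀) q₀ := mix_ext (hr₂.trans hq') hq₀r.1
        have e2 : Ext ξ (mix ξ r₂ q₀) r₂ := mix_ext' hr₂.1
        exact ⟨e1, e2, hCm σ _ _ ((e2.trans hr₂).anti hβ) hCq'⟩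
      constructor
      · intro r₂ hr₂
        obtain ⟨e1, e2, e3⟩ := key r₂ hr₂
        refine ⟨mix ξ r₂ q₀, e1.1, e2, (mix_dom le_rfl).2 hq₀d, ?_, ?_⟩
        · rw [mix_st le_rfl, hq₀s]
        · exact hsub σ _ (e1.trans hq₀r) e3
      · intro j hj r₂ hr₂
        obtain ⟨e1, e2, e3⟩ := key r₂ hr₂
        set p₂ := mix ξ r₂ q₀ with hp₂
        have hd₂ : p₂.dom ξ := (mix_dom le_rfl).2 hq₀d
        have hs₂ : p₂.st ξ = p.st ξ := by rw [hp₂, mix_st le_rfl, hq₀s]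
        have hob : Ob ξ p₂ (p₂.fc ξ) (p₂.fm ξ) (p₂.st ξ) j := by
          rw [hs₂, hp₂, mix_fc le_rfl, mix_fm le_rfl, hq₀c, hq₀m]
          refine (hM j hj).mono ?_
          exact ((e2.2.trans hr₂.2).trans hq'.2).trans hq₀r₁.2
        have h3 := addV_ext e1.1 hlt hd₂ hob
        refine ⟨_, h3.1, ?_, Or.inl rfl, ?_, hsub σ _ ((h3.trans e1).trans hq₀r) ?_⟩
        · exact (upd_agr.ext (e1.1.anti hlt.le)).trans e2
        · rw [upd_st, hs₂]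
        · exact hCm σ _ _ ((upd_agr.ext (e1.1.anti hlt.le)).anti hβ) e3
    rcases h (p.st ξ) M q₀ (hq₀r.1.anti hlt.le) C hCm hS with
      ⟨r', hr', N, hN⟩ | ⟨S, hS1, q, hq, hS2, hS3⟩
    · refine ⟨mix ξ r' q₀, (mix_ext hr' hq₀r.1).trans hq₀p, ?_, M, N, ?_⟩
      · rw [mix_st le_rfl, hq₀s]
      · intro m u q hq hU
        exact hN m u q (hq.trans_le (mix_agr ξ r' q₀).le) hU
    · exfalso
      refine hc2 S ?_ q (hq.trans (hq₀r.anti (hβ.trans hlt.le))) hS2 hS3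
      simp only [mem_iUnion]
      exact ⟨_, _, hS1⟩)
  exact hc1 r' (hr'.trans hr₀) N hN

end Pool.Agent.Helper34.SG
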