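import Pool.Agent.Helper34.SG.KeyAsm
import Pool.Agent.Helper34.SG.Sel
import Pool.Agent.Helper34.SG.Lim
import Pool.Agent.Helper34.SG.Succ

/-!
# The key lemma
-/

namespace Pool.Agent.Helper34.SG

open Set Function

set_option linter.unusedSectionVars false

variable {I : Type} [LinearOrder I] [WellFoundedLT I]

theorem key {β γ : I} (h : β ≤ γ) (T : CN γ) : ∃ D : Set (CN β), D.Countable ∧ KeyD T D :=
  key_of (fun T r hr => base_case β T r hr)
    (fun _ hβ hγ φ hφ => bdd_reg hβ hγ φ hφ)
    (fun _ _ hβ hδ T hT D hD => key_res hβ hδ T hT D hD)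
    (fun _ T s hne hs hc D hD => key_lim T s hne hs hc D hD)
    (fun _ _ hβ hξ T D hD => key_succ hβ hξ T D hD) h T

end Pool.Agent.Helper34.SG
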