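import Pool.Agent.Helper34.SG.Names

/-!
# The key lemma from its steps
-/

namespace Pool.Agent.Helper34.SG

open Set Function

set_option linter.unusedSectionVars false

variable {I : Type} [LinearOrder I] [WellFoundedLT I]

/-- The induction for the key lemma; the steps are hypotheses. -/
theorem key_of {β : I}
    (base_case : ∀ (T : CN β) (r : Cn I), Val β r →
      (∃ r', Ext β r' r ∧ ∃ N : NS β, Covers β T.O N r') ∨ ∃ q, Ext β q r ∧ NN β T.O q)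
    (bdd_reg : ∀ γ : I, β < γ →
      (∀ s : Set I, s.Countable → (∀ i ∈ s, i < γ) → ∃ δ < γ, ∀ i ∈ s, i < δ) →
      ∀ φ : ℕ → Cn I → Prop, (∀ n, Reg γ (φ n)) →
      ∃ δ < γ, β ≤ δ ∧ ∀ δ', δ ≤ δ' → δ' ≤ γ → ∀ n p, Val γ p → (φ n p ↔ φ n (cut δ' p)))
    (key_res : ∀ δ γ : I, β ≤ δ → ∀ (hδ : δ ≤ γ) (T : CN γ),
      (∀ σ p, Val γ p → T.O σ p → T.O σ (cut δ p)) → ∀ D : Set (CN β),
      KeyD (T.res δ hδ) D → KeyD T D)
    (key_lim : ∀ γ : I, ∀ (T : CN γ) (s : Set I) (_ : s.Nonempty)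
      (hs : ∀ δ ∈ s, β ≤ δ ∧ δ < γ) (_ : ∀ i < γ, ∃ δ ∈ s, i < δ) (D : I → Set (CN β))
      (_ : ∀ δ (hδ : δ ∈ s), KeyD (T.res δ (hs δ hδ).2.le) (D δ)), KeyD T (⋃ δ ∈ s, D δ))
    (key_succ : ∀ ξ ξ' : I, β ≤ ξ → ∀ (hξ : ∀ η, η < ξ' ↔ η ≤ ξ) (T : CN ξ')
      (D : List ℕ → ℕ → Set (CN β)), (∀ t k, KeyD (T.ndk hξ t k) (D t k)) →
      KeyD T (⋃ t, ⋃ k, D t k))
    {γ : I} (h : β ≤ γ) (T : CN γ) : ∃ D : Set (CN β), D.Countable ∧ KeyD T D := by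
  induction γ using WellFoundedLT.induction with
  | _ γ ih =>
    rcases h.eq_or_lt with rfl | hlt
    · -- base case
      refine ⟨{T}, Set.countable_singleton _, fun r hr C _ hC => ?_⟩
      rcases base_case T r hr with h1 | ⟨q, hq, h2⟩
      · exact Or.inl h1
      · exact Or.inr ⟨T, rfl, q, hq, fun σ q' hq' => hC σ q' (hq'.trans hq), h2⟩
    by_cases hs : ∃ ξ, ∀ η, η < γ ↔ η ≤ ξ
    · -- successor
      obtain ⟨ξ, hξ⟩ := hs
      have hβ : β ≤ ξ := (hξ β).1 hlt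
      have hξγ : ξ < γ := (hξ ξ).2 le_rfl
      choose D hD1 hD2 using fun t k => ih ξ hξγ hβ (T.ndk hξ t k)
      exact ⟨_, Set.countable_iUnion fun t => Set.countable_iUnion fun k => hD1 t k,
        key_succ ξ γ hβ hξ T D hD2⟩
    -- limit
    have hlim : ∀ i < γ, ∃ δ < γ, i < δ := by
      intro i hi
      by_contra hc
      push Not at hc
      exact hs ⟨i, fun η => ⟨hc η, fun h => h.trans_lt hi⟩⟩
    by_cases hc : ∀ s : Set I, s.Countable → (∀ i ∈ s, i < γ) → ∃ δ < γ, ∀ i ∈ s, i < δ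
    · -- uncountable cofinality
      obtain ⟨e, he⟩ := exists_surjective_nat (List Bool)
      obtain ⟨δ, hδ, hβδ, h1⟩ := bdd_reg γ hlt hc (fun n => T.O (e n)) (fun n => T.reg (e n))
      obtain ⟨D, hD1, hD2⟩ := ih δ hδ hβδ (T.res δ hδ.le)
      refine ⟨D, hD1, key_res δ γ hβδ hδ.le T (fun σ p hp hO => ?_) D hD2⟩
      obtain ⟨n, rfl⟩ := he σ
      exact (h1 δ le_rfl hδ.le n p hp).1 hO
    · -- countable cofinality
      push Not at hc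
      obtain ⟨s, hs1, hs2, hs3⟩ := hc
      have hs4 : ∀ i < γ, ∃ δ ∈ s, i ≤ δ := fun i hi => hs3 i hi
      have hs5 : ∀ i < γ, ∃ δ ∈ s, i < δ := by
        intro i hi
        obtain ⟨i', hi', hii'⟩ := hlim i hi
        obtain ⟨δ, hδ, h⟩ := hs4 i' hi'
        exact ⟨δ, hδ, hii'.trans_le h⟩
      have h1 : ∀ δ : I, ∃ D : Set (CN β), D.Countable ∧
          ∀ h : β ≤ δ ∧ δ < γ, KeyD (T.res δ h.2.le) D := by
        intro δ
        by_cases h : β ≤ δ ∧ δ < γ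
        · obtain ⟨D, hD1, hD2⟩ := ih δ h.2 h.1 (T.res δ h.2.le)
          exact ⟨D, hD1, fun _ => hD2⟩
        · exact ⟨∅, Set.countable_empty, fun h' => absurd h' h⟩
      choose D hD1 hD2 using h1
      obtain ⟨δ₀, hδ₀, hβδ₀⟩ := hs5 β hlt
      refine ⟨_, ?_, key_lim γ T {δ ∈ s | β ≤ δ} ⟨δ₀, hδ₀, hβδ₀.le⟩
        (fun δ hδ => ⟨hδ.2, hs2 δ hδ.1⟩) (fun i hi => ?_) D
        (fun δ hδ => hD2 δ ⟨hδ.2, hs2 δ hδ.1⟩)⟩
      · exact (hs1.mono fun δ hδ => hδ.1).biUnion fun δ _ => hD1 δ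
      · obtain ⟨δ, hδ, hiδ⟩ := hs5 (max i β) (max_lt hi hlt)
        exact ⟨δ, ⟨hδ, ((le_max_right _ _).trans_lt hiδ).le⟩, (le_max_left _ _).trans_lt hiδ⟩

end Pool.Agent.Helper34.SG
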