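import Pool.Agent.Helper34.SG.Defs

/-!
# Basic properties of the order
-/

namespace Pool.Agent.Helper34.SG

open Set

set_option linter.unusedSectionVars false

variable {I : Type} [LinearOrder I] [WellFoundedLT I]

theorem Le.anti {ξ ξ' : I} (h : ξ' ≤ ξ) {p q : Cn I} (hpq : Le ξ p q) : Le ξ' p q := by
  rw [Le_iff] at hpq ⊢
  exact fun η hη => hpq η (hη.trans_le h)

theorem Val.anti {ξ ξ' : I} (h : ξ' ≤ ξ) {p : Cn I} (hp : Val ξ p) : Val ξ' p := by
  rw [Val_iff] at hp ⊢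
  exact ⟨hp.1.subset fun η hη => ⟨hη.1.trans_le h, hη.2⟩, fun η hη => hp.2 η (hη.trans_le h)⟩

theorem Ext.anti {ξ ξ' : I} (h : ξ' ≤ ξ) {p q : Cn I} (hpq : Ext ξ p q) : Ext ξ' p q :=
  ⟨hpq.1.anti h, hpq.2.anti h⟩

theorem Le.refl (ξ : I) (p : Cn I) : Le ξ p p := by
  rw [Le_iff]
  refine fun η _ hd => ⟨hd, List.prefix_refl _, fun t v h1 h2 => ?_, fun t j => ⟨j, rfl, rfl⟩⟩
  have h3 := h1.length_le
  have h4 := h2.length_le
  rw [List.length_append, List.length_singleton] at h4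
  omega

theorem Le.trans {ξ : I} : ∀ {p q r : Cn I}, Le ξ p q → Le ξ q r → Le ξ p r := by
  induction ξ using WellFoundedLT.induction with
  | _ ξ ih =>
    intro p q r hpq hqr
    have hpq' := hpq
    rw [Le_iff] at hpq hqr ⊢
    intro η hη hd
    obtain ⟨h1, h2, h3, h4⟩ := hqr η hη hd
    obtain ⟨g1, g2, g3, g4⟩ := hpq η hη h1
    refine ⟨g1, h2.trans g2, fun t v ht htv j hj => ?_, fun t j => ?_⟩
    · by_cases hq : q.st η <+: t
      · obtain ⟨j', e1, e2⟩ := h4 t j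
        have := g3 t v hq htv j' (by rw [e2]; exact hj)
        rwa [e1] at this
      · have h5 : t <+: q.st η := by
          rcases List.prefix_or_prefix_of_prefix ((List.prefix_append t [v]).trans htv) g2 with h | h
          · exact h
          · exact absurd h hq
        have h6 : t ++ [v] <+: q.st η := by
          rcases List.prefix_or_prefix_of_prefix htv g2 with h | h
          · exact h
          · have h7 := h5.length_le
            have h8 := h.length_le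
            rw [List.length_append, List.length_singleton] at h8
            rcases Nat.lt_or_ge t.length (q.st η).length with h9 | h9
            · have h10 : q.st η = t ++ [v] := h.eq_of_length (by
                rw [List.length_append, List.length_singleton]; omega)
              rw [h10]
            · exact absurd (h5.eq_of_length (by omega) ▸ List.prefix_refl _) hq
        have h7 := h3 t v ht h6 j hj
        rintro ⟨u, hu, hu1, hu2⟩
        exact h7 ⟨u, hu, ih η hη hu1 (hpq'.anti hη.le), hu2⟩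
    · obtain ⟨j', e1, e2⟩ := h4 t j
      obtain ⟨j'', e3, e4⟩ := g4 t j'
      exact ⟨j'', by rw [e3, e1], by rw [e4, e2]⟩

theorem Ext.refl {ξ : I} {p : Cn I} (hp : Val ξ p) : Ext ξ p p := ⟨hp, Le.refl ξ p⟩

theorem Ext.trans {ξ : I} {p q r : Cn I} (h : Ext ξ p q) (h' : Ext ξ q r) : Ext ξ p r :=
  ⟨h.1, h.2.trans h'.2⟩

theorem Ext.trans_le {ξ : I} {p q r : Cn I} (h : Ext ξ p q) (h' : Le ξ q r) : Ext ξ p r :=
  ⟨h.1, h.2.trans h'⟩

theorem Inc.mono {ξ : I} {a b a' b' : Cn I} (h : Inc ξ a b) (ha : Le ξ a' a) (hb : Le ξ b' b) :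
    Inc ξ a' b' := by
  rintro ⟨u, h1, h2, h3⟩
  exact h ⟨u, h1, h2.trans ha, h3.trans hb⟩

theorem Inc.symm {ξ : I} {a b : Cn I} (h : Inc ξ a b) : Inc ξ b a := by
  rintro ⟨u, h1, h2, h3⟩
  exact h ⟨u, h1, h3, h2⟩

theorem Inc.not {ξ : I} {a b u : Cn I} (h : Inc ξ a b) (ha : Ext ξ u a) (hb : Ext ξ u b) : False :=
  h ⟨u, ha.1, ha.2, hb.2⟩

theorem Inc_iff {ξ : I} {a b : Cn I} : Inc ξ a b ↔ ∀ u, Ext ξ u a → ¬ Ext ξ u b := by
  constructor
  · exact fun h u h1 h2 => h.not h1 h2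
  · rintro h ⟨u, h1, h2, h3⟩
    exact h u ⟨h1, h2⟩ ⟨h1, h3⟩

/-- The conditions `p` and `q` agree below `ξ`. -/
def Agr (ξ : I) (p q : Cn I) : Prop := ∀ η < ξ, (p.dom η ↔ q.dom η) ∧
  (q.dom η → p.st η = q.st η ∧ p.fc η = q.fc η ∧ p.fm η = q.fm η)

theorem Agr.symm {ξ : I} {p q : Cn I} (h : Agr ξ p q) : Agr ξ q p := fun η hη =>
  ⟨(h η hη).1.symm, fun hd => by
    obtain ⟨h1, h2, h3⟩ := (h η hη).2 ((h η hη).1.1 hd)
    exact ⟨h1.symm, h2.symm, h3.symm⟩⟩

theorem Agr.anti {ξ ξ' : I} (h : ξ' ≤ ξ) {p q : Cn I} (hpq : Agr ξ p q) : Agr ξ' p q :=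
  fun η hη => hpq η (hη.trans_le h)

theorem Agr.le {ξ : I} {p q : Cn I} (h : Agr ξ p q) : Le ξ p q := by
  rw [Le_iff]
  intro η hη hd
  obtain ⟨h1, h2⟩ := h η hη
  obtain ⟨h3, h4, h5⟩ := h2 hd
  rw [h3, h4, h5]
  refine ⟨h1.2 hd, List.prefix_refl _, fun t v g1 g2 => ?_, fun t j => ⟨j, rfl, rfl⟩⟩
  have g3 := g1.length_le
  have g4 := g2.length_le
  rw [List.length_append, List.length_singleton] at g4
  omega

theorem Agr.val {ξ : I} {p q : Cn I} (h : Agr ξ p q) (hq : Val ξ q) : Val ξ p := by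
  rw [Val_iff] at hq ⊢
  refine ⟨hq.1.subset fun η hη => ⟨hη.1, (h η hη.1).1.1 hη.2⟩, fun η hη hd => ?_⟩
  have hd' := (h η hη).1.1 hd
  obtain ⟨-, h4, h5⟩ := (h η hη).2 hd'
  rw [h4, h5]
  exact hq.2 η hη hd'

theorem Agr.ext {ξ : I} {p q : Cn I} (h : Agr ξ p q) (hq : Val ξ q) : Ext ξ p q :=
  ⟨h.val hq, h.le⟩

/-- A condition with a valid extension is valid. -/
theorem Val.up {ξ : I} {p q : Cn I} (h : Ext ξ p q) : Val ξ q := by
  obtain ⟨h1, h2⟩ := h
  rw [Val_iff] at h1 ⊢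
  rw [Le_iff] at h2
  refine ⟨h1.1.subset fun η hη => ⟨hη.1, (h2 η hη.1 hη.2).1⟩, fun η hη hd => ?_⟩
  obtain ⟨g1, -, -, g4⟩ := h2 η hη hd
  obtain ⟨g5, g6⟩ := h1.2 η hη g1
  constructor
  · intro t j
    obtain ⟨j', e, -⟩ := g4 t j
    rw [← e]
    exact g5 t j'
  · intro t r hr
    obtain ⟨r', hr', M, hM⟩ := g6 t r hr
    refine ⟨r', hr', M, fun j hj => ?_⟩
    obtain ⟨j', e1, e2⟩ := g4 t j
    rw [← e1]
    exact hM j' (by rw [e2]; exact hj)

theorem Val_emp (ξ : I) : Val ξ (emp I) := by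
  rw [Val_iff]
  refine ⟨?_, fun η _ hd => absurd hd (emp_dom η)⟩
  have : {η | η < ξ ∧ (emp I).dom η} = ∅ := by
    ext η
    simp
  rw [this]
  exact Set.finite_empty

theorem Le_emp (ξ : I) (p : Cn I) : Le ξ p (emp I) := by
  rw [Le_iff]
  exact fun η _ hd => absurd hd (emp_dom η)

end Pool.Agent.Helper34.SG
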