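import Pool.Agent.Helper26.NE.Abs
import Pool.Agent.Helper34.SG.Core
import Pool.Agent.Helper24.SG.Stein3
import Pool.Agent.Helper24.SG.EcNull

/-!
# The poset as a partial order
-/

namespace Pool.Agent.Helper34.SG

open Set Function

set_option linter.unusedSectionVars false

variable {I : Type} [LinearOrder I] [WellFoundedLT I]

theorem EC_mono {κ α α' : I} (hα : α < κ) (hα' : α' < κ) {k : ℕ} {p q : Cn I} (h : Ext κ q p)
    (hp : EC α α' k p) : EC α α' k q := by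
  obtain ⟨j, m, b, s, h1, h2, h3, h4, h5, h6, h7⟩ := hp
  obtain ⟨g1, ⟨u, g2⟩, -⟩ := (Le_iff κ q p).1 h.2 α hα h3
  obtain ⟨g3, ⟨u', g4⟩, -⟩ := (Le_iff κ q p).1 h.2 α' hα' h4
  refine ⟨j, m, b, s, h1, h2, g1, g3, ?_, ?_, ?_⟩
  · rw [← g4, List.getElem?_append_left (List.getElem?_eq_some_iff.1 h5).1, h5]
  · rw [← g2, List.length_append]
    omega
  · intro n v hn hb hv
    rw [← g2, List.getElem?_append_left (by omega)] at hv
    exact h7 n v hn hb hv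

/-- the valid conditions -/
def Qn (κ : I) : Type := {p : Cn I // Val κ p}

noncomputable instance (κ : I) : Preorder (Qn κ) where
  le p q := Le κ p.1 q.1
  le_refl p := Le.refl κ p.1
  le_trans _ _ _ h h' := h.trans h'

/-- the poset -/
abbrev Pn (κ : I) : Type := Antisymmetrization (Qn κ) (· ≤ ·)

/-- the class of a condition -/
def cl {κ : I} (p : Cn I) (h : Val κ p) : Pn κ := toAntisymmetrization (· ≤ ·) (⟨p, h⟩ : Qn κ)

theorem cl_le {κ : I} {p q : Cn I} {hp : Val κ p} {hq : Val κ q} : cl p hp ≤ cl q hq ↔ Le κ p q :=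
  Iff.rfl

theorem cl_surj {κ : I} (P : Pn κ) : ∃ p h, P = cl p h := by
  induction P using Quotient.inductionOn' with
  | h p => exact ⟨p.1, p.2, rfl⟩

noncomputable instance (κ : I) : OrderTop (Pn κ) where
  top := cl (emp I) (Val_emp κ)
  le_top P := by
    obtain ⟨p, h, rfl⟩ := cl_surj P
    exact Le_emp κ p

theorem le_cl {κ : I} {P : Pn κ} {p : Cn I} {hp : Val κ p} (h : P ≤ cl p hp) :
    ∃ q hq, P = cl q hq ∧ Ext κ q p := by
  obtain ⟨q, hq, rfl⟩ := cl_surj P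
  exact ⟨q, hq, rfl, hq, h⟩

theorem ext_cl {κ : I} {p q : Cn I} (h : Ext κ q p) : cl q h.1 ≤ cl p (Val.up h) := h.2

theorem reg_of {κ : I} {φ : Pn κ → Prop} (mono : ∀ p q, q ≤ p → φ p → φ q)
    (dns : ∀ p, (∀ q ≤ p, ∃ r ≤ q, φ r) → φ p) : Reg κ (fun p => ∀ h : Val κ p, φ (cl p h)) where
  mono p q hq h hv := mono _ _ (ext_cl hq) (h (Val.up hq))
  dense p hp h hv := by
    refine dns _ fun Q hQ => ?_
    obtain ⟨q, hq, rfl, hqp⟩ := le_cl hQ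
    obtain ⟨r, hr, h1⟩ := h q hqp
    exact ⟨cl r hr.1, ext_cl hr, h1 hr.1⟩

/-- the name of a point -/
def rn {κ : I} (y : Pool.Agent.Helper26.NE.PN (Pn κ)) : RN κ where
  D σ p := ∀ h : Val κ p, y.D σ (cl p h)
  reg σ := reg_of (y.mono σ) (y.dns σ)
  nil p _ := y.nil _
  pre σ b p h hv := y.pre σ b _ (h hv)
  cons p σ τ hp h h' := y.con σ τ _ (h hp) (h' hp)
  dense k p hp := by
    obtain ⟨Q, hQ, s, hs, hD⟩ := y.tot k (cl p hp)
    obtain ⟨q, hq, rfl, hqp⟩ := le_cl hQ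
    exact ⟨q, s, hqp, hs, fun _ => hD⟩

/-- the name of a closed set -/
def cn {κ : I} (y : Pool.Agent.Helper26.NE.CN (Pn κ)) : CN κ where
  O σ p := ∀ h : Val κ p, y.O σ (cl p h)
  reg σ := reg_of (y.mono σ) (y.dns σ)
  ext σ b p h hv := y.ext σ b _ (h hv)
  split σ p _ h h' hv := y.spl σ _ (h hv) (h' hv)

/-- the codes of the `E`-sets -/
def Ec {κ : I} (sc : I → I) (α : {α // α < κ}) (k : ℕ) (P : Pn κ) : Prop :=
  ∃ q hq, P ≤ cl q hq ∧ EC α.1 (sc α.1) k q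

theorem Ec_cl {κ : I} {sc : I → I} (hκ : Long κ sc) (α : {α // α < κ}) {k : ℕ} {p : Cn I}
    {hp : Val κ p} : Ec sc α k (cl p hp) ↔ EC α.1 (sc α.1) k p := by
  constructor
  · rintro ⟨q, hq, h, h1⟩
    exact EC_mono α.2 (hκ.sc_lt _ α.2) ⟨hp, h⟩ h1
  · exact fun h => ⟨p, hp, le_rfl, h⟩

theorem main_abs {κ : I} {sc : I → I} (hκ : Long κ sc)
    {Nb : List Bool → List Bool → Finset (List Bool)} (hN : Stein Nb) :
    Pool.Agent.Helper26.NE.Main (Pn κ) (Ec (κ := κ) sc) Nb := by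
  intro P GG hGG C hC h1 h2
  obtain ⟨p, hp, rfl⟩ := cl_surj P
  refine main_comb hκ hN hp
    (fun x r => ∃ y, rn y = x ∧ ∃ h : Val κ r, GG y (cl r h)) ?_ (fun n => cn (C n)) ?_ ?_ ?_
  · rintro x q r hr ⟨y, hy, h, h3⟩
    exact ⟨y, hy, hr.1, hGG _ _ _ (ext_cl hr) h3⟩
  · intro n q hq σ
    obtain ⟨R, hR, τ, hτ, hO⟩ := hC n (cl q hq.1) (ext_cl hq) σ
    obtain ⟨r, hr, rfl, hrq⟩ := le_cl hR
    exact ⟨r, τ, hrq, hτ, fun _ => hO⟩
  · intro α hα q hq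
    obtain ⟨Q', hQ', y, hy, h3⟩ := h1 ⟨α, hα⟩ (cl q hq.1) (ext_cl hq)
    obtain ⟨q', hq', rfl, hq'q⟩ := le_cl hQ'
    refine ⟨q', rn y, hq'q, ⟨y, rfl, hq', hy⟩, fun j r hr hF => ?_⟩
    refine h3 j (cl r hr.1) (ext_cl hr) fun s T hT hE U hU hD => ?_
    obtain ⟨t, ht, rfl, htr⟩ := le_cl hT
    obtain ⟨u, hu, rfl, hut⟩ := le_cl hU
    exact hF s t htr ((Ec_cl hκ ⟨α, hα⟩).1 hE) u hut fun _ => hD
  · rintro x₁ x₂ q hq ⟨y₁, rfl, h3, h4⟩ ⟨y₂, rfl, h5, h6⟩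
    obtain ⟨Q', hQ', n, h7⟩ := h2 y₁ y₂ (cl q hq.1) (ext_cl hq) h4 h6
    obtain ⟨q', hq', rfl, hq'q⟩ := le_cl hQ'
    refine ⟨q', n, hq'q, fun r hr ρ τ hρτ hD₁ hD₂ hl => ?_⟩
    exact h7 (cl r hr.1) (ext_cl hr) ρ τ hρτ (hD₁ hr.1) (hD₂ hr.1) fun l hl' => hl l hl' hr.1

theorem exists_side : ∃ (P : Type) (_ : PartialOrder P) (_ : OrderTop P) (A : Type)
    (E : A → ℕ → P → Prop), Nonempty A ∧ Pool.Agent.Helper26.NE.Side P E := by
  obtain ⟨I, _, _, κ, sc, hκ⟩ := exists_long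
  obtain ⟨δ, hδ, -⟩ := hκ.bdd ∅ (by simp) (fun i hi => absurd hi (notMem_empty i))
  refine ⟨Pn κ, inferInstance, inferInstance, {α // α < κ}, Ec sc, ⟨⟨δ, hδ⟩⟩, ?_, ?_,
    main_abs hκ stein_cantor, main_abs hκ stein_circle⟩
  · rintro α k P Q hQ ⟨q, hq, h1, h2⟩
    exact ⟨q, hq, hQ.trans h1, h2⟩
  · intro α j k P
    obtain ⟨p, hp, rfl⟩ := cl_surj P
    obtain ⟨q, hq, n, S, h1, h2, h3⟩ := EC_null hκ α.2 hp j k
    exact ⟨cl q hq.1, ext_cl hq, n, S, h1, h2, fun s hs hsS => (Ec_cl hκ α).2 (h3 s hs hsS)⟩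

end Pool.Agent.Helper34.SG
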